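import Pool.Agent.Run7.h168.UQ1
import Pool.Agent.Run7.h168.UQ2

set_option autoImplicit false

/-! # Every level set of the smallest univoque base function is closed -/

namespace Pool.Agent.Run7.h168.UQ

open Filter Topology
open Pool.Agent.R341.Uni

/-- every level set `{x > 0 | inf U(x) = Q}`, `1 < Q < 2`, is closed in `(0, ∞)` -/
theorem closed_gen {Q : ℝ} (hQ1 : 1 < Q) (hQ2 : Q < 2) {x : ℝ} (hx : 0 < x)
    (hcl : x ∈ closure (LvInf Q)) : x ∈ LvInf Q := by
  by_contra hxL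
  obtain ⟨y, hy1, hy2⟩ := mem_closure_iff_seq_limit.1 hcl
  have hne : ∀ k, y k ≠ x := fun k h => hxL (h ▸ hy1 k)
  -- weak expansions
  have hex : ∀ k, ∃ D, WU Q D ∧ P Q D = y k := fun k => exists_weak hQ1 (hy1 k).2
  choose D hD1 hD2 using hex
  -- no smaller base on the left side
  have hleft : ∀ q ∈ Ux x, q < Q → ∀ᶠ k in atTop, ¬ y k < x := by
    intro q hq hqQ
    obtain ⟨h1, h2, s, hs, hU⟩ := mem_Ux.1 hq
    obtain ⟨m, hm⟩ := exists_true_of_pos (q := q) (d := s) (by rw [hs]; exact hx)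
    have h3 : P Q s < x := by rw [← hs]; exact P_strict h1 hqQ s hm
    filter_upwards [hy2.eventually (lt_mem_nhds h3)] with k hk hlt
    obtain ⟨q', h4, h5, h6⟩ := P_ivt h1 hqQ.le s hk (by rw [hs]; exact hlt)
    have h7 : q' ∈ Ux (y k) := mem_Ux.2 ⟨by linarith, by linarith, s, h6, hU.mono h1 h4.le⟩
    have h8 := csInf_le (bdd_Ux (y k)) h7
    rw [(hy1 k).2] at h8
    linarith
  have hright : ∀ q ∈ Ux x, q < Q → ∀ᶠ k in atTop, ¬ x < y k := by
    intro q hq hqQ
    obtain ⟨h1, h2, s, hs, hU⟩ := mem_Ux.1 hq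
    rcases right_alt h1 hqQ hQ2 hU (by rw [hs]; exact hx) with ⟨q'', h9, h10, h11⟩ | ⟨s', g1, g2, g3⟩
    · obtain ⟨m, hm⟩ := exists_true_of_pos (q := q) (d := s) (by rw [hs]; exact hx)
      have h3 : x < P q'' s := by rw [← hs]; exact P_strict h9 h10 s hm
      filter_upwards [hy2.eventually (gt_mem_nhds h3)] with k hk hlt
      obtain ⟨q', h4, h5, h6⟩ := P_ivt h9 h10.le s (by rw [hs]; exact hlt) hk
      have h7 : q' ∈ Ux (y k) := mem_Ux.2 ⟨by linarith, by linarith, s, h6, h11.mono h9 h4.le⟩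
      have h8 := csInf_le (bdd_Ux (y k)) h7
      rw [(hy1 k).2] at h8
      linarith
    · rw [hs] at g2 g3
      filter_upwards [hy2.eventually (gt_mem_nhds g2)] with k hk hlt
      obtain ⟨q', h4, h5, h6⟩ := P_ivt h1 hqQ.le s' (lt_trans g3 hlt) hk
      have h7 : q' ∈ Ux (y k) := mem_Ux.2 ⟨by linarith, by linarith, s', h6, g1.un h1 h4⟩
      have h8 := csInf_le (bdd_Ux (y k)) h7
      rw [(hy1 k).2] at h8
      linarith
  have hlow : ∀ q ∈ Ux x, Q ≤ q := by
    intro q hq
    by_contra hlt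
    push Not at hlt
    obtain ⟨k, hk1, hk2⟩ := ((hleft q hq hlt).and (hright q hq hlt)).exists
    rcases lt_trichotomy (y k) x with h | h | h
    · exact hk1 h
    · exact hne k h
    · exact hk2 h
  -- upper bound
  have hup : ∀ δ : ℝ, 0 < δ → ∃ q ∈ Ux x, q < Q + δ := by
    intro δ hδ
    by_cases hfr : ∃ᶠ k in atTop, y k < x
    · -- from the left
      obtain ⟨φ, hφ, hφ2⟩ := extraction_of_frequently_atTop hfr
      obtain ⟨D0, ψ, hψ, hD0⟩ := CompactSpace.tendsto_subseq (fun k => D (φ k))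
      have hW : WU Q D0 := WU.lim hQ1 tendsto_const_nhds hD0 fun k => hD1 _
      have hP : P Q D0 = x := by
        have h1 := P_tendsto hQ1 (tendsto_const_nhds (x := Q)) hD0
        refine tendsto_nhds_unique h1 ?_
        have h2 : Tendsto (fun k => y (φ (ψ k))) atTop (𝓝 x) :=
          hy2.comp (hφ.tendsto_atTop.comp hψ.tendsto_atTop)
        exact h2.congr fun k => (hD2 _).symm
      have hno : ∀ n, D0 n = true → 1 / (Q - 1) - 1 < P Q (sh (n + 1) D0) := by
        intro n hn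
        refine lt_of_le_of_ne ((hW n).2 hn) fun heq => ?_
        obtain ⟨k, hk⟩ := (agree_eventually hD0 (n + 1)).exists
        have h1 := diff_eq hQ1 (d := D (φ (ψ k))) (e := D0) (p := n + 1) (fun i hi => hk i hi)
        have h2 := (hD1 (φ (ψ k)) n).2 (by
          have h3 := hk n (by omega)
          simp only [Function.comp] at h3
          rw [h3]; exact hn)
        have h4 : (P Q (sh (n + 1) D0) - P Q (sh (n + 1) (D (φ (ψ k))))) / Q ^ (n + 1) ≤ 0 :=
          div_nonpos_of_nonpos_of_nonneg (by linarith) (by positivity)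
        rw [hP, hD2] at h1
        have := hφ2 (ψ k)
        linarith
      by_cases hU : Un Q D0
      · exact ⟨Q, mem_Ux.2 ⟨hQ1, hQ2.le, D0, hP, hU⟩, by linarith⟩
      · obtain ⟨q, hq, hqQ⟩ := H2_gen hQ1 hQ2 D0 hW hno hU
        rw [hP] at hq
        exact ⟨q, hq, by linarith⟩
    · -- from the right
      rw [not_frequently] at hfr
      obtain ⟨D0, ψ, hψ, hD0⟩ := CompactSpace.tendsto_subseq D
      have hP : P Q D0 = x := by
        have h1 := P_tendsto hQ1 (tendsto_const_nhds (x := Q)) hD0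
        refine tendsto_nhds_unique h1 ?_
        have h2 : Tendsto (fun k => y (ψ k)) atTop (𝓝 x) := hy2.comp hψ.tendsto_atTop
        exact h2.congr fun k => (hD2 _).symm
      obtain ⟨q1, hq1, hq12⟩ := exists_between (lt_min hQ2 (show Q < Q + δ by linarith))
      have hq1' : 1 < q1 := by linarith
      obtain ⟨m, hm⟩ := exists_true_of_pos (q := Q) (d := D0) (by rw [hP]; exact hx)
      have h3 : P q1 D0 < x := by rw [← hP]; exact P_strict hQ1 hq1 D0 hm
      have h4 := P_tendsto hq1' (tendsto_const_nhds (x := q1)) hD0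
      have h5 := h4.eventually (gt_mem_nhds h3)
      have h6 := hψ.tendsto_atTop.eventually hfr
      obtain ⟨k, hk1, hk2⟩ := (h5.and h6).exists
      have hk3 : x < y (ψ k) := lt_of_le_of_ne (not_lt.1 hk2) (hne _).symm
      obtain ⟨q, h7, h8, h9⟩ := P_ivt hQ1 hq1.le (D (ψ k)) hk1 (by rw [hD2]; exact hk3)
      refine ⟨q, mem_Ux.2 ⟨by linarith, ?_, D (ψ k), h9, (hD1 _).un hQ1 h7⟩, ?_⟩
      · have := min_le_left 2 (Q + δ); linarith
      · have := min_le_right 2 (Q + δ); linarith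
  apply hxL
  refine ⟨hx, le_antisymm ?_ ?_⟩
  · refine le_of_forall_pos_lt_add fun δ hδ => ?_
    obtain ⟨q, hq, hq2⟩ := hup δ hδ
    exact lt_of_le_of_lt (csInf_le (bdd_Ux x) hq) hq2
  · obtain ⟨q, hq, _⟩ := hup 1 one_pos
    exact le_csInf ⟨q, hq⟩ hlow

end Pool.Agent.Run7.h168.UQ
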