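import Pool.Agent.R341.Uni9

set_option autoImplicit false

/-! # The smallest univoque base function is upper semicontinuous from the right

If `x` has the unique expansion `s` in the base `q` and `Q > q`, then either `s` is a unique expansion in a
smaller base, or there is a sequence `s'`, slightly larger than `s`, which is weakly unique in the base `q`,
with `P Q s' < x < P q s'`. -/

namespace Pool.Agent.Run7.h168.UQ

open Filter Topology
open Pool.Agent.R341.Uni

/-- strict comparison under the two weak conditions -/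
lemma wstrict {q : ℝ} (hq : 1 < q) (hq2 : q < 2) {d e : ℕ → Bool} {p : ℕ} (h : ∀ i < p, d i = e i)
    (hd : d p = false) (he : e p = true) (h1 : P q (sh (p + 1) d) ≤ 1)
    (h2 : 1 / (q - 1) - 1 ≤ P q (sh (p + 1) e)) : P q d < P q e := by
  have h0 := diff_eq hq h
  have hA : 1 < 1 / (q - 1) := by rw [lt_div_iff₀ (by linarith)]; linarith
  have h3 : 0 < P q (sh p e) - P q (sh p d) := by
    rw [P_succ hq (sh p e), P_succ hq (sh p d), sh_sh, sh_sh, sh_apply, sh_apply, add_zero, hd, he,
      ← sub_div]
    apply div_pos _ (by linarith)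
    simp only [dg_true, dg_false]
    linarith
  have h4 : 0 < (P q (sh p e) - P q (sh p d)) / q ^ p := div_pos h3 (by positivity)
  linarith

/-- no weak expansion of `1`: the conditions are open -/
lemma open_of_none {q : ℝ} (hq1 : 1 < q) (hno1 : ¬ ∃ e, WU q e ∧ P q e = 1)
    (c : ℕ → Bool) (hc : Un q c) : ∃ q', 1 < q' ∧ q' < q ∧ Un q' c := by
  by_contra hno
  push Not at hno
  -- bases
  let u : ℕ → ℝ := fun k => q - (q - 1) / ((k : ℝ) + 2)
  have hu1 : ∀ k, 1 < u k := fun k => by
    have h1 : (q - 1) / ((k : ℝ) + 2) < q - 1 := by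
      rw [div_lt_iff₀ (by positivity)]
      have : (0 : ℝ) ≤ k := Nat.cast_nonneg k
      nlinarith
    show 1 < q - (q - 1) / ((k : ℝ) + 2)
    linarith
  have hu2 : ∀ k, u k < q := fun k => by
    have h1 : 0 < (q - 1) / ((k : ℝ) + 2) := div_pos (by linarith) (by positivity)
    show q - (q - 1) / ((k : ℝ) + 2) < q
    linarith
  have hu : Tendsto u atTop (𝓝 q) := by
    have h1 : Tendsto (fun k : ℕ => (q - 1) / ((k : ℝ) + 2)) atTop (𝓝 0) := by
      refine Tendsto.div_atTop tendsto_const_nhds ?_
      exact tendsto_atTop_add_const_right _ _ tendsto_natCast_atTop_atTop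
    have h2 : Tendsto (fun k : ℕ => q - (q - 1) / ((k : ℝ) + 2)) atTop (𝓝 (q - 0)) :=
      tendsto_const_nhds.sub h1
    rwa [sub_zero] at h2
  -- violations
  have hviol : ∀ k, ∃ e : ℕ → Bool, Un q e ∧ 1 ≤ P (u k) e ∧ P q e < 1 := by
    intro k
    have h1 := hno (u k) (hu1 k) (hu2 k)
    unfold Un at h1
    push Not at h1
    obtain ⟨n, hn⟩ := h1
    cases hcn : c n
    · by_cases h2 : P (u k) (sh (n + 1) c) < 1
      · have := (hn fun _ => h2).1
        rw [hcn] at this
        exact absurd this (by decide)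
      · exact ⟨sh (n + 1) c, hc.sh _, not_lt.1 h2, (hc n).1 hcn⟩
    · have h3 := (hn fun h => absurd (hcn.symm.trans h) (by decide)).2
      refine ⟨fun i => !(sh (n + 1) c i), (hc.sh _).compl hq1, ?_, ?_⟩
      · rw [P_compl (hu1 k)]; linarith
      · rw [P_compl hq1]
        have := (hc n).2 hcn
        linarith
  choose e he1 he2 he3 using hviol
  obtain ⟨e0, φ, hφ, he0⟩ := CompactSpace.tendsto_subseq e
  have hW : WU q e0 := WU.lim hq1 (tendsto_const_nhds (x := q)) he0 fun k => (he1 _).wu
  have hP : P q e0 = 1 := by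
    apply le_antisymm
    · exact le_of_tendsto' (P_tendsto hq1 (tendsto_const_nhds (x := q)) he0) fun k => (he3 _).le
    · exact ge_of_tendsto' (P_tendsto hq1 (hu.comp hφ.tendsto_atTop) he0) fun k => he2 _
  exact hno1 ⟨e0, hW, hP⟩

/-- arbitrarily large positions `N` at which no agreement with `e` is alive -/
lemma exists_death {q : ℝ} (hq1 : 1 < q) (hq2 : q < 2) {e : ℕ → Bool} (he : WU q e) (he1 : P q e = 1)
    {s : ℕ → Bool} (hs : Un q s) (hinf : ∀ B, ∃ b, B ≤ b ∧ s b = false) (B : ℕ) :
    ∃ N, B ≤ N ∧ s N = false ∧ ∀ m < N, s m = false → ∃ p, m + 1 + p ≤ N ∧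
      (∀ i < p, s (m + 1 + i) = e i) ∧ s (m + 1 + p) = false ∧ e p = true := by
  classical
  have hf : ∀ m, s m = false → ∃ p, (∀ i < p, s (m + 1 + i) = e i) ∧ s (m + 1 + p) = false ∧
      e p = true := by
    intro m hm
    have hlt := (hs m).1 hm
    rcases trich (sh (m + 1) s) e with h | h | h
    · rw [h, he1] at hlt; exact absurd hlt (lt_irrefl _)
    · obtain ⟨p, h1, h2, h3⟩ := h
      exact ⟨p, fun i hi => by simpa using h1 i hi, by simpa using h2, h3⟩
    · obtain ⟨p, h1, h2, h3⟩ := h
      have := wlt_of_left hq1 h1 h2 h3 ((he p).1 h2)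
      linarith
  choose! π hπ1 hπ2 hπ3 using hf
  obtain ⟨b, hbB, hb⟩ := hinf B
  let S := (Finset.range (b + 1)).filter fun m => s m = false
  have hbS : b ∈ S := by simp only [S, Finset.mem_filter, Finset.mem_range]; exact ⟨by omega, hb⟩
  obtain ⟨o, hoS, hmax⟩ := S.exists_max_image (fun m => m + 1 + π m) ⟨b, hbS⟩
  simp only [S, Finset.mem_filter, Finset.mem_range] at hoS hmax
  obtain ⟨hob, ho⟩ := hoS
  have hbo := hmax b ⟨by omega, hb⟩
  refine ⟨o + 1 + π o, by omega, hπ2 o ho, fun m hm hms => ⟨π m, ?_, hπ1 m hms, hπ2 m hms, hπ3 m hms⟩⟩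
  rcases Nat.lt_or_ge m (b + 1) with h5 | h5
  · exact hmax m ⟨h5, hms⟩
  · by_contra hlt
    push Not at hlt
    obtain ⟨i0, hi0⟩ : ∃ i0, m = o + 1 + i0 := ⟨m - (o + 1), by omega⟩
    obtain ⟨r, hr⟩ : ∃ r, π o = i0 + 1 + r := ⟨π o - (i0 + 1), by omega⟩
    have hrm : r < π m := by omega
    have hei0 : e i0 = false := by
      rw [← hπ1 o ho i0 (by omega), ← hi0]; exact hms
    have her : e r = false := by
      rw [← hπ1 m hms r hrm, show m + 1 + r = o + 1 + π o by omega]
      exact hπ2 o ho
    have hag : ∀ i < r, e i = sh (i0 + 1) e i := by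
      intro i hi
      rw [sh_apply, ← hπ1 m hms i (by omega), ← hπ1 o ho (i0 + 1 + i) (by omega),
        show m + 1 + i = o + 1 + (i0 + 1 + i) by omega]
    have hsr : sh (i0 + 1) e r = true := by
      rw [sh_apply, ← hr]; exact hπ3 o ho
    have h6 := wstrict hq1 hq2 hag her hsr ((he r).1 her) (by
      rw [sh_sh, show i0 + 1 + (r + 1) = π o + 1 by omega]
      exact (he (π o)).2 (hπ3 o ho))
    have h7 := (he i0).1 hei0
    linarith

/-- the sequence with a new digit `1` at a death position is weakly unique -/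
lemma glue_wu {q : ℝ} (hq1 : 1 < q) {e : ℕ → Bool} (he : WU q e) (he1 : P q e = 1)
    {s : ℕ → Bool} (hs : Un q s) {N : ℕ} (hN : s N = false)
    (hd : ∀ m < N, s m = false → ∃ p, m + 1 + p ≤ N ∧
      (∀ i < p, s (m + 1 + i) = e i) ∧ s (m + 1 + p) = false ∧ e p = true) :
    WU q (glue N s (cons true (fun i => !e i))) := by
  set g := glue N s (cons true (fun i => !e i)) with hg
  have hgN : sh N g = cons true (fun i => !e i) := sh_glue N s _
  have hgN1 : sh (N + 1) g = fun i => !e i := by
    rw [← sh_sh, hgN, sh_cons]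
  have hglt : ∀ i < N, g i = s i := fun i hi => glue_lt _ _ hi
  have hgNt : g N = true := by
    have := congrFun hgN 0
    simpa using this
  have hcompl : P q (fun i => !e i) = 1 / (q - 1) - 1 := by rw [P_compl hq1, he1]
  -- positions before `N` with digit `0`
  have key : ∀ k m, m + k = N → 1 ≤ k → s m = false → P q (sh (m + 1) g) ≤ 1 := by
    intro k
    induction k using Nat.strong_induction_on with
    | _ k ih =>
      intro m hmk hk hsm
      obtain ⟨p, hp1, hp2, hp3, hp4⟩ := hd m (by omega) hsm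
      have hag : ∀ i < p, sh (m + 1) g i = e i := fun i hi => by
        rw [sh_apply, hglt _ (by omega)]; exact hp2 i hi
      rcases Nat.lt_or_ge (m + 1 + p) N with h1 | h1
      · have h2 := ih (N - (m + 1 + p)) (by omega) (m + 1 + p) (by omega) (by omega) hp3
        have h3 := wlt_of_left hq1 hag (by rw [sh_apply, hglt _ h1]; exact hp3) hp4 (by
          rw [sh_sh, show m + 1 + (p + 1) = m + 1 + p + 1 by ring]; exact h2)
        linarith
      · have hpN : m + 1 + p = N := by omega
        have hag2 : ∀ i < p + 1, sh (m + 1) g i = e i := fun i hi => by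
          rcases Nat.lt_or_ge i p with h4 | h4
          · exact hag i h4
          · obtain rfl : i = p := by omega
            rw [sh_apply, hpN, hgNt, hp4]
        have h3 := diff_eq hq1 hag2
        rw [sh_sh, show m + 1 + (p + 1) = N + 1 by omega, hgN1, hcompl] at h3
        have h4 := (he p).2 hp4
        have h5 : 0 ≤ (P q (sh (p + 1) e) - (1 / (q - 1) - 1)) / q ^ (p + 1) :=
          div_nonneg (by linarith) (by positivity)
        linarith
  intro n
  rcases Nat.lt_trichotomy n N with h | h | h
  · refine ⟨fun hn => ?_, fun hn => ?_⟩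
    · exact key (N - n) n (by omega) (by omega) (by rw [← hglt n h]; exact hn)
    · obtain ⟨k, hk⟩ : ∃ k, N = n + 1 + k := ⟨N - (n + 1), by omega⟩
      have h1 := (hs n).2 (by rw [← hglt n h]; exact hn)
      have h2 : P q (sh (n + 1) s) ≤ P q (sh (n + 1) g) := by
        refine wlt_of_left hq1 (p := k) (fun i hi => ?_) ?_ ?_ ?_
        · rw [sh_apply, sh_apply, hglt _ (by omega)]
        · rw [sh_apply, ← hk]; exact hN
        · rw [sh_apply, ← hk]; exact hgNt
        · rw [sh_sh, show n + 1 + (k + 1) = N + 1 by omega]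
          exact ((hs N).1 hN).le
      linarith
  · subst h
    refine ⟨fun hn => ?_, fun _ => ?_⟩
    · rw [hgNt] at hn; exact absurd hn (by decide)
    · rw [hgN1, hcompl]
  · obtain ⟨k, rfl⟩ : ∃ k, n = N + 1 + k := ⟨n - (N + 1), by omega⟩
    have h1 := (he.compl hq1) k
    have h2 : g (N + 1 + k) = !e k := by
      have := congrFun hgN1 k
      simpa using this
    have h3 : sh (N + 1 + k + 1) g = sh (k + 1) (fun i => !e i) := by
      rw [← hgN1, sh_sh]; congr 1
    rw [h2, h3]
    exact h1

/-- **the alternative on the right side** -/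
theorem right_alt {q Q : ℝ} (hq1 : 1 < q) (hqQ : q < Q) (hQ2 : Q < 2) {s : ℕ → Bool} (hU : Un q s)
    (hpos : 0 < P q s) :
    (∃ q', 1 < q' ∧ q' < q ∧ Un q' s) ∨ ∃ s', WU q s' ∧ P q s < P q s' ∧ P Q s' < P q s := by
  have hq2 : q < 2 := by linarith
  have hQ1 : 1 < Q := by linarith
  by_cases hW : ∃ e, WU q e ∧ P q e = 1
  swap
  · exact Or.inl (open_of_none hq1 hW s hU)
  obtain ⟨e, he, he1⟩ := hW
  by_cases hz : ∃ m, s m = false
  swap
  · left
    push Not at hz
    have hs1 : s = fun _ => true := funext fun m => by simpa using hz m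
    refine ⟨(1 + q) / 2, by linarith, by linarith, fun n => ⟨fun h => ?_, fun _ => ?_⟩⟩
    · rw [hs1] at h; simp at h
    · rw [hs1, show sh (n + 1) (fun _ => true) = fun _ => true from rfl, P_ones (by linarith)]
      linarith
  have hinf : ∀ B, ∃ b, B ≤ b ∧ s b = false := by
    by_contra hc
    push Not at hc
    have hc' : ∃ B, ∀ b, B ≤ b → s b = true := by
      obtain ⟨B, hB⟩ := hc
      exact ⟨B, fun b hb => by simpa using hB b hb⟩
    classical
    have h1 := Nat.find_spec hc'
    set B := Nat.find hc' with hBdef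
    have hB0 : B ≠ 0 := by
      intro h0
      obtain ⟨m, hm⟩ := hz
      have := h1 m (by omega)
      rw [hm] at this
      exact absurd this (by decide)
    obtain ⟨B', hB'⟩ : ∃ B', B = B' + 1 := ⟨B - 1, by omega⟩
    have h2 : s B' = false := by
      by_contra hne
      have hne' : s B' = true := by simpa using hne
      refine Nat.find_min hc' (m := B') (by omega) fun b hb => ?_
      rcases Nat.lt_or_ge B' b with h3 | h3
      · exact h1 b (by omega)
      · obtain rfl : b = B' := by omega
        exact hne'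
    have h3 := (hU B').1 h2
    have h4 : sh (B' + 1) s = fun _ => true := funext fun i => h1 _ (by omega)
    rw [h4, P_ones hq1, div_lt_iff₀ (by linarith)] at h3
    linarith
  -- size of the tail
  obtain ⟨m0, hm0⟩ : ∃ m, s m = true := by
    by_contra hc
    push Not at hc
    have : s = fun _ => false := funext fun m => by simpa using hc m
    rw [this, P_zeros] at hpos
    exact lt_irrefl _ hpos
  have hgap : 0 < P q s - P Q s := by
    have := P_strict hq1 hqQ s hm0
    linarith
  obtain ⟨B, hB⟩ : ∃ B : ℕ, ∀ n, B ≤ n → 1 / (Q - 1) / Q ^ n < P q s - P Q s := by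
    have hlim : Tendsto (fun n : ℕ => 1 / (Q - 1) / Q ^ n) atTop (𝓝 0) := by
      have h5 : Tendsto (fun n : ℕ => (1 / (Q - 1)) * (1 / Q) ^ n) atTop
          (𝓝 ((1 / (Q - 1)) * 0)) :=
        (tendsto_pow_atTop_nhds_zero_of_lt_one (by positivity)
          (by rw [div_lt_one (by linarith)]; exact hQ1)).const_mul _
      rw [mul_zero] at h5
      refine h5.congr fun n => ?_
      rw [one_div_pow, mul_one_div]
    have := hlim.eventually (gt_mem_nhds hgap)
    rw [Filter.eventually_atTop] at this
    exact this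
  obtain ⟨N, hNB, hN, hd⟩ := exists_death hq1 hq2 he he1 hU hinf B
  right
  refine ⟨glue N s (cons true (fun i => !e i)), glue_wu hq1 he he1 hU hN hd, ?_, ?_⟩
  · refine lt_of_left hq1 (p := N) (fun i hi => (glue_lt _ _ hi).symm) hN ?_ ((hU N).1 hN)
    simp [glue]
  · have h1 := P_agree hQ1 (d := glue N s (cons true (fun i => !e i))) (e := s) (L := N)
      (fun i hi => glue_lt _ _ hi)
    have h2 := hB N hNB
    linarith

end Pool.Agent.Run7.h168.UQ
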