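import Pool.Agent.R341.Uni16
import Pool.Agent.Run7.h168.UQ3

set_option autoImplicit false

/-! # A univoque base `Q` with only one point in its level set: preparations

`s = 11100(10)^∞`, `t = 0 s`, and `Q = 1.8767385...` is the base with `P Q s = 1`. -/

namespace Pool.Agent.Run7.h168.UQ

open Filter Topology
open Pool.Agent.R341.Uni

/-- one branch, with a rational bound `B` -/
lemma branchB (B : ℚ) (hB1 : 1 < B) (hB2 : B ≤ 2) (u v : List Bool) (q : ℚ) (lo hi : ℚ)
    (hv : 1 ≤ v.length) (hq : 1 < q) (hqB : q < B)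
    (hc : chk q (pv q v) (u ++ v) = true) (hlo : fv B (pv B v) u ≤ lo)
    (hhi : hi ≤ fv q (pv q v) u) {x : ℝ} (h1 : (lo : ℝ) < x) (h2 : x < hi) :
    ∃ q ∈ Ux x, q ≤ (B : ℝ) := by
  have hB2' : (B : ℝ) ≤ 2 := by exact_mod_cast hB2
  have hq' : (1 : ℝ) < q := by exact_mod_cast hq
  have hqB' : (q : ℝ) < B := by exact_mod_cast hqB
  have hU := ep_un hq hv hc
  have e1 : P (B : ℝ) (ep u v) < x := by
    rw [ep_val hB1 hv]
    refine lt_of_le_of_lt ?_ h1
    exact_mod_cast hlo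
  have e2 : x < P (q : ℝ) (ep u v) := by
    rw [ep_val hq hv]
    refine lt_of_lt_of_le h2 ?_
    exact_mod_cast hhi
  obtain ⟨q', h3, h4, h5⟩ := P_ivt hq' hqB'.le _ e1 e2
  exact ⟨q', mem_Ux.2 ⟨by linarith, by linarith, _, h5, hU.mono hq' h3.le⟩, h4.le⟩

/-- the rational bound slightly below `Q` -/
def B0 : ℚ := 18767385 / 10000000

lemma C3 {x : ℝ} (h1 : ((625533 / 1000000 : ℚ) : ℝ) < x) (h2 : x < ((630 / 1000 : ℚ) : ℝ)) :
    ∃ q ∈ Ux x, q ≤ (B0 : ℝ) :=
  branchB B0 (by unfold B0; norm_num) (by unfold B0; norm_num)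
    (W [1,0,0,1]) (W [0,0,0,1,1,1]) (1867/1000) _ _ (by decide)
    (by norm_num) (by unfold B0; norm_num) (by decide +kernel) (by decide +kernel) (by decide +kernel) h1 h2

lemma C4 {x : ℝ} (h1 : ((628 / 1000 : ℚ) : ℝ) < x) (h2 : x < ((647 / 1000 : ℚ) : ℝ)) :
    ∃ q ∈ Ux x, q ≤ (B0 : ℝ) :=
  branchB B0 (by unfold B0; norm_num) (by unfold B0; norm_num)
    (W [1,0,0,1]) (W [0,0,1]) (184/100) _ _ (by decide)
    (by norm_num) (by unfold B0; norm_num) (by decide +kernel) (by decide +kernel) (by decide +kernel) h1 h2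

lemma C5 {x : ℝ} (h1 : ((6455 / 10000 : ℚ) : ℝ) < x) (h2 : x < ((68 / 100 : ℚ) : ℝ)) :
    ∃ q ∈ Ux x, q ≤ (B0 : ℝ) :=
  branchB B0 (by unfold B0; norm_num) (by unfold B0; norm_num)
    (W [1,0,0,1]) (W [0,1]) (181/100) _ _ (by decide)
    (by norm_num) (by unfold B0; norm_num) (by decide +kernel) (by decide +kernel) (by decide +kernel) h1 h2

lemma C6 {x : ℝ} (h1 : ((668 / 1000 : ℚ) : ℝ) < x) (h2 : x < ((75 / 100 : ℚ) : ℝ)) :
    ∃ q ∈ Ux x, q ≤ (B0 : ℝ) :=
  branchB B0 (by unfold B0; norm_num) (by unfold B0; norm_num)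
    (W []) (W [1,0,0,1]) (176/100) _ _ (by decide)
    (by norm_num) (by unfold B0; norm_num) (by decide +kernel) (by decide +kernel) (by decide +kernel) h1 h2

lemma C8 {x : ℝ} (h1 : ((745 / 1000 : ℚ) : ℝ) < x) (h2 : x < ((997 / 1000 : ℚ) : ℝ)) :
    ∃ q ∈ Ux x, q ≤ (B0 : ℝ) :=
  branchB B0 (by unfold B0; norm_num) (by unfold B0; norm_num)
    (W []) (W [1,0]) (162/100) _ _ (by decide)
    (by norm_num) (by unfold B0; norm_num) (by decide +kernel) (by decide +kernel) (by decide +kernel) h1 h2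

lemma C9 {x : ℝ} (h1 : ((93 / 100 : ℚ) : ℝ) < x) (h2 : x < ((123 / 100 : ℚ) : ℝ)) :
    ∃ q ∈ Ux x, q ≤ (B0 : ℝ) :=
  branchB B0 (by unfold B0; norm_num) (by unfold B0; norm_num)
    (W [1]) (W [1,0]) (162/100) _ _ (by decide)
    (by norm_num) (by unfold B0; norm_num) (by decide +kernel) (by decide +kernel) (by decide +kernel) h1 h2

lemma C10 {x : ℝ} (h1 : ((3966 / 10000 : ℚ) : ℝ) < x) (h2 : x < ((6180327 / 10000000 : ℚ) : ℝ)) :
    ∃ q ∈ Ux x, q ≤ (B0 : ℝ) :=
  branchB B0 (by unfold B0; norm_num) (by unfold B0; norm_num)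
    (W [0]) (W [1,0]) (1618035/1000000) _ _ (by decide)
    (by norm_num) (by unfold B0; norm_num) (by decide +kernel) (by decide +kernel) (by decide +kernel) h1 h2

lemma C11 {x : ℝ} (h1 : ((356 / 1000 : ℚ) : ℝ) < x) (h2 : x < ((42649 / 100000 : ℚ) : ℝ)) :
    ∃ q ∈ Ux x, q ≤ (B0 : ℝ) :=
  branchB B0 (by unfold B0; norm_num) (by unfold B0; norm_num)
    (W [0]) (W [1,0,0,1]) (176/100) _ _ (by decide)
    (by norm_num) (by unfold B0; norm_num) (by decide +kernel) (by decide +kernel) (by decide +kernel) h1 h2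

lemma smallB {x : ℝ} (h0 : 0 < x) (h1 : x < 38 / 100) : ∃ q ∈ Ux x, q ≤ (B0 : ℝ) := by
  set z := ep [] (W [1, 0]) with hz
  have hB : (1 : ℚ) < B0 := by unfold B0; norm_num
  have hB' : (1 : ℝ) < (B0 : ℝ) := by exact_mod_cast hB
  have hB2 : (B0 : ℝ) ≤ 2 := by unfold B0; norm_num
  have hA : P (B0 : ℝ) z < 0.7442 := by
    rw [hz, ep_val hB (by decide)]
    have : fv B0 (pv B0 (W [1, 0])) [] < 0.7442 := by decide +kernel
    have h2 : ((fv B0 (pv B0 (W [1, 0])) [] : ℚ) : ℝ) < ((0.7442 : ℚ) : ℝ) := by exact_mod_cast this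
    refine lt_of_lt_of_eq h2 ?_
    norm_num
  have hBv : (0.9972 : ℝ) < P 1.62 z ∧ P 1.62 z < 1 ∧ (0.38 : ℝ) * 1.62 ^ 2 < P 1.62 z := by
    have e := ep_val (q := 1.62) (by norm_num) (u := []) (v := W [1, 0]) (by decide)
    have e3 : ((1.62 : ℚ) : ℝ) = 1.62 := by norm_num
    rw [e3] at e
    rw [hz, e]
    have t1 : 0.9972 < fv 1.62 (pv 1.62 (W [1, 0])) [] := by decide +kernel
    have t2 : fv 1.62 (pv 1.62 (W [1, 0])) [] < 1 := by decide +kernel
    have t3 : 0.38 * 1.62 ^ 2 < fv 1.62 (pv 1.62 (W [1, 0])) [] := by decide +kernel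
    refine ⟨?_, ?_, ?_⟩
    · have h2 : ((0.9972 : ℚ) : ℝ) < ((fv 1.62 (pv 1.62 (W [1, 0])) [] : ℚ) : ℝ) := by
        exact_mod_cast t1
      refine lt_of_eq_of_lt ?_ h2
      norm_num
    · have h2 : ((fv 1.62 (pv 1.62 (W [1, 0])) [] : ℚ) : ℝ) < ((1 : ℚ) : ℝ) := by
        exact_mod_cast t2
      refine lt_of_lt_of_eq h2 ?_
      norm_num
    · have h2 : ((0.38 * 1.62 ^ 2 : ℚ) : ℝ) < ((fv 1.62 (pv 1.62 (W [1, 0])) [] : ℚ) : ℝ) := by
        exact_mod_cast t3
      refine lt_of_eq_of_lt ?_ h2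
      norm_num
  have hU : Un (1.62 : ℝ) z := by
    have := ep_un (q := 1.62) (by norm_num) (u := []) (v := W [1, 0]) (by decide) (by decide +kernel)
    have e3 : ((1.62 : ℚ) : ℝ) = 1.62 := by norm_num
    rw [e3] at this
    exact this
  have hex : ∃ j : ℕ, P (B0 : ℝ) z / (B0 : ℝ) ^ (j + 2) < x := by
    have h5 : Tendsto (fun n : ℕ => P (B0 : ℝ) z * (1 / (B0 : ℝ)) ^ n) atTop
        (𝓝 (P (B0 : ℝ) z * 0)) :=
      (tendsto_pow_atTop_nhds_zero_of_lt_one (by positivity)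
        (by rw [div_lt_one (by linarith)]; exact hB')).const_mul _
    rw [mul_zero] at h5
    obtain ⟨n, hn⟩ := (h5.eventually_lt_const h0).exists
    refine ⟨n, lt_of_le_of_lt ?_ hn⟩
    rw [one_div_pow, mul_one_div]
    refine div_le_div_of_nonneg_left (P_nonneg hB' _) (by positivity) ?_
    exact pow_le_pow_right₀ hB'.le (by omega)
  classical
  obtain ⟨j, hj1, hj2⟩ : ∃ j : ℕ, P (B0 : ℝ) z / (B0 : ℝ) ^ j < x ∧ x < P 1.62 z / (1.62 : ℝ) ^ j := by
    have hs := Nat.find_spec hex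
    rcases Nat.eq_zero_or_pos (Nat.find hex) with h | h
    · refine ⟨2, by rw [h] at hs; exact hs, ?_⟩
      rw [lt_div_iff₀ (by norm_num)]
      have := hBv.2.2
      nlinarith [this, h1]
    · obtain ⟨m, hm⟩ : ∃ m, Nat.find hex = m + 1 := ⟨Nat.find hex - 1, by omega⟩
      have hmin := Nat.find_min hex (m := m) (by omega)
      push Not at hmin
      rw [hm] at hs
      refine ⟨m + 1 + 2, hs, lt_of_le_of_lt hmin ?_⟩
      have hBn : (B0 : ℝ) = 1.8767385 := by unfold B0; norm_num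
      rw [hBn, div_lt_div_iff₀ (by positivity) (by positivity)]
      rw [hBn] at hA
      have h6 : (1.62 : ℝ) ^ m ≤ 1.8767385 ^ m := pow_le_pow_left₀ (by norm_num) (by norm_num) _
      have h7 : (1.62 : ℝ) ^ (m + 1 + 2) = 1.62 ^ m * 4.251528 := by ring
      have h8 : (1.8767385 : ℝ) ^ (m + 2) = 1.8767385 ^ m * 3.52214739738225 := by ring
      have h9 : (0 : ℝ) < 1.62 ^ m := by positivity
      rw [h7, h8]
      have t0 := P_nonneg (q := 1.8767385) (by norm_num) z
      calc P 1.8767385 z * (1.62 ^ m * 4.251528) ≤ 0.7442 * (1.62 ^ m * 4.251528) :=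
            mul_le_mul_of_nonneg_right hA.le (by positivity)
        _ < 0.9972 * (1.62 ^ m * 3.52214739738225) := by nlinarith
        _ ≤ 0.9972 * (1.8767385 ^ m * 3.52214739738225) := by nlinarith
        _ ≤ P 1.62 z * (1.8767385 ^ m * 3.52214739738225) :=
            mul_le_mul_of_nonneg_right hBv.1.le (by positivity)
  have hq62 : (1 : ℝ) < 1.62 := by norm_num
  have hle : (1.62 : ℝ) ≤ B0 := by unfold B0; norm_num
  obtain ⟨q', h3, h4, h5⟩ := P_ivt hq62 hle (zs z j) (y := x) (by rw [zs_P hB']; exact hj1)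
    (by rw [zs_P hq62]; exact hj2)
  exact ⟨q', mem_Ux.2 ⟨by linarith, by linarith, _, h5,
    (zs_un hq62 hU hBv.2.1 j).mono hq62 h3.le⟩, h4.le⟩

/-- outside `[0.618, 0.6255]` there is a univoque base at most `B0` -/
theorem outer {x : ℝ} (h0 : 0 < x) (hx : x < 618 / 1000 ∨ 625536 / 1000000 ≤ x) :
    ∃ q ∈ Ux x, q ≤ (B0 : ℝ) := by
  rcases lt_or_ge x (38 / 100) with h | h
  · exact smallB h0 h
  rcases lt_or_ge x (4 / 10) with h2 | h2
  · exact C11 (by push_cast; norm_num; linarith) (by push_cast; norm_num; linarith)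
  rcases lt_or_ge x (618 / 1000) with h3 | h3
  · exact C10 (by push_cast; norm_num; linarith) (by push_cast; norm_num; linarith)
  have h4 : 625536 / 1000000 ≤ x := by
    rcases hx with h5 | h5
    · linarith
    · exact h5
  rcases lt_or_ge x (629 / 1000) with h5 | h5
  · exact C3 (by push_cast; norm_num; linarith) (by push_cast; norm_num; linarith)
  rcases lt_or_ge x (646 / 1000) with h6 | h6
  · exact C4 (by push_cast; norm_num; linarith) (by push_cast; norm_num; linarith)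
  rcases lt_or_ge x (67 / 100) with h7 | h7
  · exact C5 (by push_cast; norm_num; linarith) (by push_cast; norm_num; linarith)
  rcases lt_or_ge x (749 / 1000) with h8 | h8
  · exact C6 (by push_cast; norm_num; linarith) (by push_cast; norm_num; linarith)
  rcases lt_or_ge x (95 / 100) with h10 | h10
  · exact C8 (by push_cast; norm_num; linarith) (by push_cast; norm_num; linarith)
  rcases lt_or_ge x (12 / 10) with h11 | h11
  · exact C9 (by push_cast; norm_num; linarith) (by push_cast; norm_num; linarith)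
  · have hx : 0 < 1 / x := by positivity
    have hx2 : 1 / x ≤ 1 / (12 / 10) := one_div_le_one_div_of_le (by norm_num) h11
    norm_num at hx2
    have hx3 : x⁻¹ = 1 / x := by rw [one_div]
    have hq : 1 < 1 + 1 / x := by linarith
    have hval : P (1 + 1 / x) (fun _ => true) = x := by
      rw [P_ones hq]
      field_simp
      ring
    refine ⟨1 + 1 / x, mem_Ux.2 ⟨hq, ?_, fun _ => true, hval, ?_⟩, ?_⟩
    · linarith
    · intro n
      refine ⟨fun h => by simp at h, fun _ => ?_⟩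
      have e : sh (n + 1) (fun _ => true) = fun _ => true := rfl
      rw [e, P_ones hq]
      linarith
    · unfold B0
      push_cast
      norm_num
      linarith

end Pool.Agent.Run7.h168.UQ
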