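import Pool.Agent.R341.Uni14
import Pool.Agent.Run7.h168.UQ2

set_option autoImplicit false

/-! # The univoque base `Q` of `11100(10)^∞` and the branches just above its level point -/

namespace Pool.Agent.Run7.h168.UQ

open Filter Topology
open Pool.Agent.R341.Uni

/-- `0 11100 (10)^∞` -/
def tt : ℕ → Bool := fun i =>
  if i = 1 ∨ i = 2 ∨ i = 3 then true else if i < 6 then false else decide (i % 2 = 0)

lemma tt_ep : sh 1 tt = ep [true, true, true, false, false] [true, false] := by
  funext i
  rcases Nat.lt_or_ge i 5 with h | h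
  · interval_cases i <;> rfl
  · obtain ⟨j, rfl⟩ : ∃ j, i = 5 + j := ⟨i - 5, by omega⟩
    rcases Nat.mod_two_eq_zero_or_one j with h1 | h1
    · have h2 : tt (1 + (5 + j)) = true := by
        unfold tt
        rw [if_neg (by omega), if_neg (by omega)]
        simp; omega
      have h3 : ep [true, true, true, false, false] [true, false] (5 + j) = true := by
        unfold ep
        simp [h1]
      rw [sh_apply, h2, h3]
    · have h2 : tt (1 + (5 + j)) = false := by
        unfold tt
        rw [if_neg (by omega), if_neg (by omega)]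
        simp; omega
      have h3 : ep [true, true, true, false, false] [true, false] (5 + j) = false := by
        unfold ep
        simp [h1]
      rw [sh_apply, h2, h3]

lemma tt_even (i : ℕ) : tt (6 + 2 * i) = true := by
  unfold tt
  rw [if_neg (by omega), if_neg (by omega)]
  simp

lemma tt_odd (i : ℕ) : tt (7 + 2 * i) = false := by
  unfold tt
  rw [if_neg (by omega), if_neg (by omega)]
  simp

/-- the base -/
lemma exists_Q : ∃ Q : ℝ, 1.8767385 < Q ∧ Q < 1.8767386 ∧ P Q (sh 1 tt) = 1 ∧ Un Q (sh 1 tt) := by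
  have ha : (1 : ℚ) < 18767385 / 10000000 := by norm_num
  have hb : (1 : ℚ) < 18767386 / 10000000 := by norm_num
  have e1 : P ((18767385 / 10000000 : ℚ) : ℝ) (sh 1 tt) =
      ((fv (18767385 / 10000000) (pv (18767385 / 10000000) [true, false])
        [true, true, true, false, false] : ℚ) : ℝ) := by
    rw [tt_ep, ep_val ha (by decide)]
  have e2 : P ((18767386 / 10000000 : ℚ) : ℝ) (sh 1 tt) =
      ((fv (18767386 / 10000000) (pv (18767386 / 10000000) [true, false])
        [true, true, true, false, false] : ℚ) : ℝ) := by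
    rw [tt_ep, ep_val hb (by decide)]
  have t1 : 1 < fv (18767385 / 10000000) (pv (18767385 / 10000000) [true, false])
        [true, true, true, false, false] := by decide +kernel
  have t2 : fv (18767386 / 10000000) (pv (18767386 / 10000000) [true, false])
        [true, true, true, false, false] < 1 := by decide +kernel
  have g1 : (1 : ℝ) < P ((18767385 / 10000000 : ℚ) : ℝ) (sh 1 tt) := by
    rw [e1]; exact_mod_cast t1
  have g2 : P ((18767386 / 10000000 : ℚ) : ℝ) (sh 1 tt) < 1 := by
    rw [e2]; exact_mod_cast t2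
  have ha' : (1 : ℝ) < ((18767385 / 10000000 : ℚ) : ℝ) := by exact_mod_cast ha
  obtain ⟨Q, h1, h2, h3⟩ := P_ivt ha' (b := ((18767386 / 10000000 : ℚ) : ℝ))
    (by push_cast; norm_num) (sh 1 tt) g2 g1
  have hU : Un ((18767385 / 10000000 : ℚ) : ℝ) (sh 1 tt) := by
    rw [tt_ep]
    exact ep_un ha (by decide) (by decide +kernel)
  refine ⟨Q, ?_, ?_, h3, hU.mono ha' h1.le⟩
  · push_cast at h1; norm_num at h1 ⊢; linarith
  · push_cast at h2; norm_num at h2 ⊢; linarith

/-- the good prefixes -/
lemma tt_good (k : ℕ) : Good tt (8 + 2 * k) := by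
  refine ⟨by have := tt_even (k + 1); rw [show 6 + 2 * (k + 1) = 8 + 2 * k by ring] at this; exact this, ?_⟩
  intro o ho1 ho2 ho3
  rcases Nat.lt_or_ge o 6 with h | h
  · interval_cases o
    · exact ⟨1, by omega, by unfold Dif; decide⟩
    · exact ⟨1, by omega, by unfold Dif; decide⟩
    · exact ⟨3, by omega, by unfold Dif; decide⟩
    · exact absurd ho3 (by decide)
    · exact absurd ho3 (by decide)
  · rcases Nat.mod_two_eq_zero_or_one o with h1 | h1
    · obtain ⟨i, rfl⟩ : ∃ i, o = 6 + 2 * i := ⟨(o - 6) / 2, by omega⟩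
      refine ⟨2, by omega, ?_⟩
      unfold Dif
      have := tt_even (i + 1)
      rw [show 6 + 2 * (i + 1) = 6 + 2 * i + 2 by ring] at this
      rw [this, tt_even]
      decide
    · obtain ⟨i, rfl⟩ : ∃ i, o = 7 + 2 * i := ⟨(o - 7) / 2, by omega⟩
      rw [tt_odd] at ho3
      exact absurd ho3 (by decide)

/-- the word `100` followed by the complement of `e` -/
def EE (e : ℕ → Bool) : ℕ → Bool := glue 3 (fun i => decide (i = 0)) (fun i => !e i)

lemma EE_P {q : ℝ} (hq : 1 < q) (e : ℕ → Bool) (he : e 0 = false) :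
    P q (EE e) = 1 / q + (1 / (q - 1) - P q (sh 1 e) / q) / q ^ 3 := by
  have h1 := P_split hq (EE e) 3
  have h2 : sh 3 (EE e) = fun i => !e i := sh_glue _ _ _
  rw [h2, P_compl hq] at h1
  rw [h1, Finset.sum_range_succ, Finset.sum_range_succ, Finset.sum_range_succ, Finset.sum_range_zero]
  have h3 : EE e 0 = true := rfl
  have h4 : EE e 1 = false := rfl
  have h5 : EE e 2 = false := rfl
  rw [h3, h4, h5, P_succ hq e, he]
  simp

end Pool.Agent.Run7.h168.UQ
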