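import Pool.Agent.Run7.h168.UQ5

set_option autoImplicit false

/-! # The branches just above the level point -/

namespace Pool.Agent.Run7.h168.UQ

open Filter Topology
open Pool.Agent.R341.Uni

/-- the periodic sequence of the prefix of length `8 + 2k` -/
def tp (k : ℕ) : ℕ → Bool := fun i => tt (i % (8 + 2 * k))

lemma tp_zero (k : ℕ) : tp k 0 = false := by
  unfold tp
  rw [Nat.zero_mod]; rfl

lemma tp_lt (k : ℕ) {i : ℕ} (h : i < 8 + 2 * k) : tp k i = tt i := by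
  unfold tp
  rw [Nat.mod_eq_of_lt h]

lemma tp_per (k : ℕ) : sh (8 + 2 * k) (tp k) = tp k := by
  funext i
  unfold tp
  rw [sh_apply, Nat.add_mod_left]

lemma tt_beta {Q : ℝ} (hQ : 1 < Q) (k : ℕ) : P Q (sh (8 + 2 * k) tt) * (Q ^ 2 - 1) = Q := by
  have h1 := P_succ hQ (sh (8 + 2 * k) tt)
  have h2 := P_succ hQ (sh (9 + 2 * k) tt)
  have e0 : sh (10 + 2 * k) tt = sh (8 + 2 * k) tt := by
    funext i
    simp only [sh_apply]
    unfold tt
    rw [if_neg (by omega), if_neg (by omega), if_neg (by omega), if_neg (by omega)]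
    congr 1
    apply propext
    omega
  rw [sh_sh, sh_apply, add_zero, show 8 + 2 * k = 6 + 2 * (k + 1) by ring, tt_even,
    show 6 + 2 * (k + 1) + 1 = 9 + 2 * k by ring, show 6 + 2 * (k + 1) = 8 + 2 * k by ring] at h1
  rw [sh_sh, sh_apply, add_zero, show 9 + 2 * k = 7 + 2 * (k + 1) by ring, tt_odd,
    show 7 + 2 * (k + 1) + 1 = 10 + 2 * k by ring, show 7 + 2 * (k + 1) = 9 + 2 * k by ring, e0] at h2
  rw [h2] at h1
  simp only [dg_true, dg_false] at h1
  have hQ0 : Q ≠ 0 := by linarith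
  field_simp at h1
  nlinarith [h1]

lemma delta_eq {Q : ℝ} (hQ : 1 < Q) (hα : P Q (sh 1 tt) = 1) (k : ℕ) :
    (1 - P Q (sh 1 (tp k))) * ((Q ^ 2 - 1) * (Q ^ (8 + 2 * k) - 1)) = 1 := by
  have hQ0 : Q ≠ 0 := by linarith
  have h1 := diff_eq hQ (d := sh 1 (tp k)) (e := sh 1 tt) (p := 7 + 2 * k) (fun i hi => by
    rw [sh_apply, sh_apply, tp_lt k (by omega)])
  rw [sh_sh, sh_sh, show 1 + (7 + 2 * k) = 8 + 2 * k by ring, tp_per, hα, P_succ hQ (tp k),
    tp_zero, dg_false, zero_add] at h1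
  have h2 := tt_beta hQ k
  generalize P Q (sh 1 (tp k)) = y at h1 ⊢
  generalize P Q (sh (8 + 2 * k) tt) = b at h1 h2
  have h3 : Q ^ (8 + 2 * k) = Q ^ (7 + 2 * k) * Q := by rw [← pow_succ]; congr 1; omega
  have hX : 0 < Q ^ (7 + 2 * k) := by positivity
  rw [h3]
  generalize Q ^ (7 + 2 * k) = X at h1 hX ⊢
  have h4 : (1 - y) * X * Q = b * Q - y := by
    field_simp at h1
    linarith
  have h5 : (1 - y) * (X * Q - 1) = b * Q - 1 := by linarith
  calc (1 - y) * ((Q ^ 2 - 1) * (X * Q - 1)) = ((1 - y) * (X * Q - 1)) * (Q ^ 2 - 1) := by ring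
    _ = (b * Q - 1) * (Q ^ 2 - 1) := by rw [h5]
    _ = (b * (Q ^ 2 - 1)) * Q - (Q ^ 2 - 1) := by ring
    _ = 1 := by rw [h2]; ring

/-- the left end of the interval of a branch -/
lemma left_end {Q : ℝ} (hQ : 1 < Q) (hα : P Q (sh 1 tt) = 1) (k : ℕ) :
    P Q (EE (tp k)) = P Q (EE tt) + (1 - P Q (sh 1 (tp k))) / Q ^ 4 := by
  rw [EE_P hQ _ (tp_zero k), EE_P hQ _ (by rfl), hα]
  have hQ0 : Q ≠ 0 := by linarith
  field_simp
  ring

/-- the base at the right end -/
lemma exists_qk {Q : ℝ} (h1 : 1.8767385 < Q) (hα : P Q (sh 1 tt) = 1) (k : ℕ) :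
    ∃ q, 1.86 < q ∧ q < Q ∧ P q (sh 1 (tp k)) = 1 := by
  have hQ : 1 < Q := by linarith
  have hδ := delta_eq hQ hα k
  have hpos : 0 < (Q ^ 2 - 1) * (Q ^ (8 + 2 * k) - 1) := by
    apply mul_pos
    · nlinarith
    · have : 1 < Q ^ (8 + 2 * k) := one_lt_pow₀ hQ (by omega)
      linarith
  have hlt : P Q (sh 1 (tp k)) < 1 := by
    by_contra hc
    push Not at hc
    have : (1 - P Q (sh 1 (tp k))) * ((Q ^ 2 - 1) * (Q ^ (8 + 2 * k) - 1)) ≤ 0 :=
      mul_nonpos_of_nonpos_of_nonneg (by linarith) hpos.le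
    linarith
  have ha : (1 : ℚ) < 186 / 100 := by norm_num
  have e1 : P ((186 / 100 : ℚ) : ℝ) (sh 1 tt) =
      ((fv (186 / 100) (pv (186 / 100) [true, false]) [true, true, true, false, false] : ℚ) : ℝ) := by
    rw [tt_ep, ep_val ha (by decide)]
  have t1 : 1016 / 1000 < fv (186 / 100) (pv (186 / 100) [true, false])
      [true, true, true, false, false] := by decide +kernel
  have g1 : ((1016 / 1000 : ℚ) : ℝ) < P ((186 / 100 : ℚ) : ℝ) (sh 1 tt) := by
    rw [e1]; exact_mod_cast t1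
  have c1 : ((186 / 100 : ℚ) : ℝ) = 1.86 := by norm_num
  rw [c1] at g1
  have g2 := P_agree (q := 1.86) (by norm_num) (d := sh 1 tt) (e := sh 1 (tp k)) (L := 7) (fun i hi => by
    rw [sh_apply, sh_apply, tp_lt k (by omega)])
  have g3 : (1 : ℝ) / (1.86 - 1) / 1.86 ^ 7 < 0.0155 := by norm_num
  have g4 : 1 < P 1.86 (sh 1 (tp k)) := by
    push_cast at g1
    norm_num at g1 g2 g3 ⊢
    linarith
  exact P_ivt (by norm_num) (by linarith) (sh 1 (tp k)) hlt g4

/-- the right end of the interval -/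
lemma right_end {Q : ℝ} (h1 : 1.8767385 < Q) (h2 : Q < 1.8767386) (hα : P Q (sh 1 tt) = 1) (k : ℕ)
    {q : ℝ} (hq1 : 1.86 < q) (hq2 : q < Q) (hq3 : P q (sh 1 (tp k)) = 1) :
    P Q (EE tt) + 0.2965 * (1 - P Q (sh 1 (tp k))) ≤ P q (EE (tp k)) := by
  have hQ : 1 < Q := by linarith
  have hq : 1 < q := by linarith
  have hlip := P_lip hq hq2.le (sh 1 (tp k))
  rw [hq3] at hlip
  rw [EE_P hQ _ (by rfl), EE_P hq _ (tp_zero k), hα, hq3]
  set δ := 1 - P Q (sh 1 (tp k)) with hδ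
  -- `D = 1/(q-1) - 1/(Q-1)`
  have hD : 1 / (q - 1) - 1 / (Q - 1) = (Q - q) / ((q - 1) * (Q - 1)) := by
    have : q - 1 ≠ 0 := by linarith
    have : Q - 1 ≠ 0 := by linarith
    field_simp
    ring
  have hI : 1 / q - 1 / Q = (Q - q) / (q * Q) := by
    have : q ≠ 0 := by linarith
    have : Q ≠ 0 := by linarith
    field_simp
  have hI2 : 0.2159 * (1 / (q - 1) - 1 / (Q - 1)) ≤ 1 / q - 1 / Q := by
    rw [hD, hI, mul_div_assoc', div_le_div_iff₀ (by nlinarith) (by nlinarith)]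
    have h5 : 0.2159 * (q * Q) ≤ (q - 1) * (Q - 1) := by nlinarith
    nlinarith [mul_le_mul_of_nonneg_left h5 (show 0 ≤ Q - q by linarith)]
  have hD0 : 0 ≤ 1 / (q - 1) - 1 / (Q - 1) := by
    rw [hD]; exact div_nonneg (by linarith) (by nlinarith)
  have hG1 : ∀ r : ℝ, 1 < r → (1 / (r - 1) - 1 / r) / r ^ 3 = 1 / (r - 1) / r ^ 4 := by
    intro r hr
    have : r - 1 ≠ 0 := by linarith
    have : r ≠ 0 := by linarith
    field_simp
    ring
  rw [hG1 q hq, hG1 Q hQ]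
  have hG2 : 1 / (q - 1) / Q ^ 4 ≤ 1 / (q - 1) / q ^ 4 := by
    apply div_le_div_of_nonneg_left
    · apply div_nonneg zero_le_one; linarith
    · positivity
    · exact pow_le_pow_left₀ (by linarith) hq2.le _
  have hG3 : 0.0806 ≤ 1 / Q ^ 4 := by
    rw [le_div_iff₀ (by positivity)]
    have : Q ^ 4 ≤ 1.8767386 ^ 4 := pow_le_pow_left₀ (by linarith) h2.le _
    norm_num at this ⊢
    linarith
  have hG4 : 0.0806 * (1 / (q - 1) - 1 / (Q - 1)) ≤ 1 / (q - 1) / Q ^ 4 - 1 / (Q - 1) / Q ^ 4 := by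
    rw [← sub_div, div_eq_mul_one_div _ (Q ^ 4), mul_comm]
    exact mul_le_mul_of_nonneg_left hG3 hD0
  have hδD : 0.2965 * δ ≤ 0.2965 * (1 / (q - 1) - 1 / (Q - 1)) := by
    apply mul_le_mul_of_nonneg_left _ (by norm_num)
    linarith
  linarith

/-- the sequences of the branches are unique expansions -/
lemma EE_un (ht : Adm tt) (k : ℕ) {q : ℝ} (hq : 1 < q) (h : P q (sh 1 (tp k)) < 1) :
    Un q (EE (tp k)) := by
  refine lexnum2 hq (tp_zero k) h fun m => ?_
  have s0 : tp k 0 = false := tp_zero k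
  have s1 : tp k 1 = true := tp_lt k (by omega)
  have s2 : tp k 2 = true := tp_lt k (by omega)
  have s3 : tp k 3 = true := tp_lt k (by omega)
  have a0 : EE (tp k) 0 = true := rfl
  have a1 : EE (tp k) 1 = false := rfl
  have a2 : EE (tp k) 2 = false := rfl
  have hE : ∀ i, EE (tp k) (3 + i) = !tp k i := fun i => by
    have := congrFun (sh_glue 3 (fun i => decide (i = 0)) (fun i => !tp k i)) i
    rw [sh_apply] at this
    exact this
  have a3 : EE (tp k) 3 = true := by rw [show (3 : ℕ) = 3 + 0 from rfl, hE, s0]; rfl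
  rcases Nat.lt_or_ge m 3 with hm | hm
  · left
    interval_cases m
    · refine ⟨3, fun i hi => ?_, ?_, s3⟩
      · interval_cases i
        · simp [sh, a0, s0]
        · simp [sh, a0, a1, s1]
        · simp [sh, a0, a2, s2]
      · simp [sh, a0, a3]
    · refine ⟨1, fun i hi => ?_, ?_, s1⟩
      · interval_cases i
        simp [sh, a1, s0]
      · simp [sh, a1, a2]
    · refine ⟨2, fun i hi => ?_, ?_, s2⟩
      · interval_cases i
        · simp [sh, a2, s0]
        · simp [sh, a2, a3, s1]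
      · have a4 : EE (tp k) 4 = false := by rw [show (4 : ℕ) = 3 + 1 from rfl, hE, s1]; rfl
        simp [sh, a2, a4]
  · obtain ⟨m', rfl⟩ : ∃ m', m = 3 + m' := ⟨m - 3, by omega⟩
    have h9 := periodic_weak ht (show 1 ≤ 8 + 2 * k by omega) (tt_good k) m'
    have e : sh (3 + m') (EE (tp k)) = fun i => !(sh m' (tp k) i) := by
      funext i
      rw [sh_apply, sh_apply, add_assoc, hE]
    rcases h9 with h9 | h9
    · left
      rw [e]
      exact Kp.compl h9
    · right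
      intro i
      have h10 : xor (tp k (m' + i)) (tp k m') = tp k i := h9 i
      rw [add_assoc, hE, hE, ← h10]
      cases tp k (m' + i) <;> cases tp k m' <;> rfl

/-- **the cover just above the level point** -/
theorem inner {Q : ℝ} (h1 : 1.8767385 < Q) (h2 : Q < 1.8767386) (hα : P Q (sh 1 tt) = 1)
    (hUα : Un Q (sh 1 tt)) {x : ℝ} (hx1 : P Q (EE tt) < x) (hx2 : x < 625536 / 1000000) :
    ∃ q ∈ Ux x, q < Q := by
  classical
  have hQ : 1 < Q := by linarith
  have hQ2 : Q ≤ 2 := by linarith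
  have ht : Adm tt := adm_of_un hQ (by rfl) hα hUα
  have hpos : ∀ k : ℕ, 0 < (Q ^ 2 - 1) * (Q ^ (8 + 2 * k) - 1) := fun k => by
    apply mul_pos
    · nlinarith
    · have : 1 < Q ^ (8 + 2 * k) := one_lt_pow₀ hQ (by omega)
      linarith
  have hδ : ∀ k, 1 - P Q (sh 1 (tp k)) = 1 / ((Q ^ 2 - 1) * (Q ^ (8 + 2 * k) - 1)) := fun k => by
    rw [eq_div_iff (hpos k).ne']
    exact delta_eq hQ hα k
  have hδ0 : ∀ k, 0 < 1 - P Q (sh 1 (tp k)) := fun k => by
    rw [hδ]; exact one_div_pos.2 (hpos k)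
  -- the left ends tend to the level point
  have hex : ∃ k, P Q (EE (tp k)) < x := by
    obtain ⟨n, hn⟩ := pow_unbounded_of_one_lt (1 + 1 / (x - P Q (EE tt))) hQ
    refine ⟨n, ?_⟩
    have hd : 0 < x - P Q (EE tt) := by linarith
    rw [left_end hQ hα, hδ]
    have h3 : Q ^ n ≤ Q ^ (8 + 2 * n) := pow_le_pow_right₀ hQ.le (by omega)
    have h4 : 1 / (x - P Q (EE tt)) < (Q ^ 2 - 1) * (Q ^ (8 + 2 * n) - 1) := by
      have h5 : 1 / (x - P Q (EE tt)) < Q ^ (8 + 2 * n) - 1 := by linarith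
      have h6 : 0 < Q ^ (8 + 2 * n) - 1 := lt_trans (one_div_pos.2 hd) h5
      have h7 : 1 ≤ Q ^ 2 - 1 := by nlinarith
      exact lt_of_lt_of_le h5 (le_mul_of_one_le_left h6.le h7)
    have h7 : 1 / ((Q ^ 2 - 1) * (Q ^ (8 + 2 * n) - 1)) < x - P Q (EE tt) := by
      rw [div_lt_iff₀ hd] at h4
      rw [div_lt_iff₀ (hpos n)]
      linarith
    have h8 : 1 ≤ Q ^ 4 := one_le_pow₀ hQ.le
    have h9 : 1 / ((Q ^ 2 - 1) * (Q ^ (8 + 2 * n) - 1)) / Q ^ 4 ≤
        1 / ((Q ^ 2 - 1) * (Q ^ (8 + 2 * n) - 1)) :=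
      div_le_self (one_div_pos.2 (hpos n)).le h8
    linarith
  have hk := Nat.find_spec hex
  set k := Nat.find hex with hkdef
  obtain ⟨qk, hq1, hq2, hq3⟩ := exists_qk h1 hα k
  have hre := right_end h1 h2 hα k hq1 hq2 hq3
  have hup : x < P qk (EE (tp k)) := by
    refine lt_of_lt_of_le ?_ hre
    rcases Nat.eq_zero_or_pos k with h0 | h0
    · -- the first branch
      rw [h0, hδ]
      refine lt_of_lt_of_le hx2 ?_
      rw [EE_P hQ _ (by rfl), hα]
      have hb2 : Q ^ 2 ≤ 1.8767386 ^ 2 := pow_le_pow_left₀ (by linarith) h2.le _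
      have hb3 : Q ^ 3 ≤ 1.8767386 ^ 3 := pow_le_pow_left₀ (by linarith) h2.le _
      have hb8 : Q ^ 8 ≤ 1.8767386 ^ 8 := pow_le_pow_left₀ (by linarith) h2.le _
      have hb8' : 1 < Q ^ 8 := one_lt_pow₀ hQ (by omega)
      have k1 : 1 / 1.8767386 ≤ 1 / Q := one_div_le_one_div_of_le (by linarith) h2.le
      have k2 : 1 / (1.8767386 - 1) ≤ 1 / (Q - 1) := one_div_le_one_div_of_le (by linarith) (by linarith)
      have k3 : 1 / Q ≤ 1 / 1.8767385 := one_div_le_one_div_of_le (by norm_num) h1.le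
      have k4 : (1 / (1.8767386 - 1) - 1 / 1.8767385) / 1.8767386 ^ 3 ≤ (1 / (Q - 1) - 1 / Q) / Q ^ 3 := by
        apply div_le_div₀ _ (by linarith) (by positivity) hb3
        have : (0 : ℝ) ≤ 1 / (1.8767386 - 1) - 1 / 1.8767385 := by norm_num
        linarith
      have k5 : 1 / ((1.8767386 ^ 2 - 1) * (1.8767386 ^ 8 - 1)) ≤
          1 / ((Q ^ 2 - 1) * (Q ^ (8 + 2 * 0) - 1)) := by
        apply one_div_le_one_div_of_le (hpos 0)
        simp only [mul_zero, add_zero]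
        apply mul_le_mul (by linarith) (by linarith) (by linarith)
        norm_num
      have k6 : (625536 / 1000000 : ℝ) ≤ 1 / 1.8767386 +
          (1 / (1.8767386 - 1) - 1 / 1.8767385) / 1.8767386 ^ 3 +
          0.2965 * (1 / ((1.8767386 ^ 2 - 1) * (1.8767386 ^ 8 - 1))) := by norm_num
      linarith
    · obtain ⟨j, hj⟩ : ∃ j, k = j + 1 := ⟨k - 1, by omega⟩
      have hmin := Nat.find_min hex (m := j) (by omega)
      push Not at hmin
      refine lt_of_le_of_lt hmin ?_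
      rw [left_end hQ hα, hj, hδ, hδ]
      set X := Q ^ (8 + 2 * j) with hX
      have hX2 : Q ^ (8 + 2 * (j + 1)) = X * Q ^ 2 := by
        rw [hX, ← pow_add]; congr 1
      rw [hX2]
      have hXbig : 150 ≤ X := by
        calc (150 : ℝ) ≤ 1.8767385 ^ 8 := by norm_num
          _ ≤ Q ^ 8 := pow_le_pow_left₀ (by norm_num) h1.le _
          _ ≤ Q ^ (8 + 2 * j) := pow_le_pow_right₀ hQ.le (by omega)
      have hs1 : Q ^ 2 < 3.5222 := by nlinarith
      have hs2 : 3.5221 < Q ^ 2 := by nlinarith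
      have hA : 0 < (Q ^ 2 - 1) * (X - 1) := by
        apply mul_pos <;> linarith
      have hB : 0 < (Q ^ 2 - 1) * (X * Q ^ 2 - 1) := by
        apply mul_pos
        · linarith
        · nlinarith
      have hmain : 1 / ((Q ^ 2 - 1) * (X - 1)) / Q ^ 4 <
          0.2965 * (1 / ((Q ^ 2 - 1) * (X * Q ^ 2 - 1))) := by
        rw [div_div, mul_one_div, div_lt_div_iff₀ (by positivity) hB]
        have hQ4 : Q ^ 4 = Q ^ 2 * Q ^ 2 := by ring
        rw [hQ4]
        generalize Q ^ 2 = R at hs1 hs2 hA hB ⊢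
        have h5 : X * R - 1 < 0.2965 * (X - 1) * (R * R) := by
          have h6 : 12.4 ≤ R * R := by nlinarith
          nlinarith
        have h7 : 0 < R - 1 := by linarith
        nlinarith [mul_lt_mul_of_pos_left h5 h7]
      linarith
  obtain ⟨q, g1, g2, g3⟩ := P_ivt (show (1 : ℝ) < qk by linarith) hq2.le (EE (tp k)) hk hup
  refine ⟨q, mem_Ux.2 ⟨by linarith, by linarith, _, g3, EE_un ht k (by linarith) ?_⟩, g2⟩
  rw [← hq3]
  refine P_strict (by linarith) g1 _ (n := 0) ?_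
  rw [sh_apply, tp_lt k (by omega)]
  rfl

end Pool.Agent.Run7.h168.UQ
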