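import Pool.Agent.Run7.h168.UQ4
import Pool.Agent.Run7.h168.UQ6

set_option autoImplicit false

/-! # The level set of the base `Q` has at most one point -/

namespace Pool.Agent.Run7.h168.UQ

open Filter Topology
open Pool.Agent.R341.Uni

/-- no weak expansion has its value in the gap below the level point -/
theorem gap {Q : ℝ} (h1 : 1.8767385 < Q) (h2 : Q < 1.8767386) (hα : P Q (sh 1 tt) = 1)
    (hUα : Un Q (sh 1 tt)) {D : ℕ → Bool} (hD : WU Q D) (hx1 : 618 / 1000 ≤ P Q D)
    (hx2 : P Q D < P Q (EE tt)) : False := by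
  have hQ : 1 < Q := by linarith
  have hC0 : EE tt 0 = true := rfl
  have hC1 : EE tt 1 = false := rfl
  have hC2 : EE tt 2 = false := rfl
  have hC : ∀ i, EE tt (3 + i) = !tt i := fun i => by
    have := congrFun (sh_glue 3 (fun i => decide (i = 0)) (fun i => !tt i)) i
    rw [sh_apply] at this
    exact this
  have k3 : 1 / Q ≤ 1 / 1.8767385 := one_div_le_one_div_of_le (by norm_num) h1.le
  rcases trich D (EE tt) with h | h | h
  · rw [h] at hx2; exact lt_irrefl _ hx2
  · obtain ⟨p, hp1, hp2, hp3⟩ := h
    rcases Nat.lt_or_ge p 4 with hp | hp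
    · interval_cases p
      · have e1 := P_succ hQ D
        rw [hp2, dg_false, zero_add] at e1
        have e2 := (hD 0).1 hp2
        rw [zero_add] at e2
        have e3 : P Q D ≤ 1 / Q := by
          rw [e1]; exact div_le_div_of_nonneg_right e2 (by linarith)
        have e4 : (1 : ℝ) / 1.8767385 < 618 / 1000 := by norm_num
        linarith
      · rw [hC1] at hp3; exact absurd hp3 (by decide)
      · rw [hC2] at hp3; exact absurd hp3 (by decide)
      · have d0 : D 0 = true := by rw [hp1 0 (by omega), hC0]
        have d1 : D 1 = false := by rw [hp1 1 (by omega), hC1]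
        have d2 : D 2 = false := by rw [hp1 2 (by omega), hC2]
        have e1 := P_split hQ D 4
        rw [Finset.sum_range_succ, Finset.sum_range_succ, Finset.sum_range_succ,
          Finset.sum_range_succ, Finset.sum_range_zero, d0, d1, d2, hp2] at e1
        simp only [dg_true, dg_false, zero_div, add_zero, zero_add, pow_one] at e1
        have e2 := (hD 3).1 hp2
        have e3 : P Q (sh 4 D) / Q ^ 4 ≤ 1 / Q ^ 4 :=
          div_le_div_of_nonneg_right e2 (by positivity)
        have e4 : 1 / Q ^ 4 ≤ 1 / 1.8767385 ^ 4 := by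
          apply one_div_le_one_div_of_le (by norm_num)
          exact pow_le_pow_left₀ (by norm_num) h1.le _
        have e5 : (1 : ℝ) / 1.8767385 + 1 / 1.8767385 ^ 4 < 618 / 1000 := by norm_num
        linarith
    · obtain ⟨r, rfl⟩ : ∃ r, p = 4 + r := ⟨p - 4, by omega⟩
      have d3 : D 3 = true := by
        rw [hp1 3 (by omega), show (3 : ℕ) = 3 + 0 from rfl, hC]; rfl
      have e1 := (hD 3).2 d3
      have e2 : P Q (sh 1 tt) < P Q (fun i => !(sh 4 D) i) := by
        refine lt_of_left hQ (p := r) (fun i hi => ?_) ?_ ?_ ?_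
        · have e3 := hp1 (4 + i) (by omega)
          rw [show 4 + i = 3 + (1 + i) by ring, hC] at e3
          rw [sh_apply, sh_apply, show 4 + i = 3 + (1 + i) by ring, e3, Bool.not_not]
        · rw [show 4 + r = 3 + (1 + r) by ring, hC] at hp3
          rw [sh_apply]
          simpa using hp3
        · rw [sh_apply, hp2]; rfl
        · have e4 : sh 1 tt r = false := by
            rw [show 4 + r = 3 + (1 + r) by ring, hC] at hp3
            rw [sh_apply]
            simpa using hp3
          exact (hUα r).1 e4
      rw [P_compl hQ, hα] at e2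
      simp only [Nat.reduceAdd] at e1
      linarith
  · obtain ⟨p, hp1, hp2, hp3⟩ := h
    have := wlt_of_right hQ hp1 hp2 hp3 ((hD p).2 hp3)
    linarith

/-- **the level set has at most one point** -/
theorem level_one {Q : ℝ} (h1 : 1.8767385 < Q) (h2 : Q < 1.8767386) (hα : P Q (sh 1 tt) = 1)
    (hUα : Un Q (sh 1 tt)) {x : ℝ} (hx0 : 0 < x) (hx : sInf (Ux x) = Q) : x = P Q (EE tt) := by
  have hlow : ∀ q ∈ Ux x, Q ≤ q := fun q hq => by
    rw [← hx]; exact csInf_le (bdd_Ux x) hq
  have hB : (B0 : ℝ) < Q := by
    have : (B0 : ℝ) = 1.8767385 := by unfold B0; norm_num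
    rw [this]; exact h1
  rcases lt_or_ge x (618 / 1000) with h | h
  · obtain ⟨q, hq, hqB⟩ := outer hx0 (Or.inl h)
    have := hlow q hq
    linarith
  rcases lt_or_ge x (625536 / 1000000) with h' | h'
  · rcases lt_trichotomy x (P Q (EE tt)) with h3 | h3 | h3
    · exfalso
      obtain ⟨D, hD, hDx⟩ := exists_weak (show 1 < Q by linarith) hx
      rw [← hDx] at h h3
      exact gap h1 h2 hα hUα hD h h3
    · exact h3
    · obtain ⟨q, hq, hqQ⟩ := inner h1 h2 hα hUα h3 h'
      have := hlow q hq
      linarith
  · obtain ⟨q, hq, hqB⟩ := outer hx0 (Or.inr h')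
    have := hlow q hq
    linarith

end Pool.Agent.Run7.h168.UQ
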