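import Mathlib

/-!
# Zombies and Survivors on a finite connected graph

The game of the problem file, with `k` zombies (`Fin k`) on a finite graph `G`.
-/

open scoped ENNReal

namespace Run7.h168.Zombie

variable {V : Type*} [Fintype V] [DecidableEq V]

/-- The neighbours of `z` that lie on a shortest path from `z` to `v`. -/
noncomputable def closer (G : SimpleGraph V) (z v : V) : Finset V := by
  classical exact Finset.univ.filter fun w => G.Adj z w ∧ G.dist w v + 1 = G.dist z v

/-- The probability that a zombie standing at `z` moves to `w` when the survivor is at `v`:
uniform on the neighbours of `z` that lie on a shortest path to `v`. -/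
noncomputable def stepProb (G : SimpleGraph V) (z v w : V) : ℝ≥0∞ :=
  if w ∈ closer G z v then ((closer G z v).card : ℝ≥0∞)⁻¹ else 0

/-- A strategy of the survivor: it chooses the next vertex from the list of the zombie
configurations seen so far (most recent first, the last one being the starting configuration). -/
abbrev Strategy (V : Type*) (k : ℕ) := List (Fin k → V) → V

/-- A strategy is legal if in every round the survivor stays put or moves to a neighbour
(the first vertex, chosen after seeing the starting positions of the zombies, is arbitrary). -/
def Legal (G : SimpleGraph V) {k : ℕ} (σ : Strategy V k) : Prop :=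
  ∀ (z' z : Fin k → V) (h : List (Fin k → V)),
    σ (z' :: z :: h) = σ (z :: h) ∨ G.Adj (σ (z :: h)) (σ (z' :: z :: h))

/-- `surv G σ T z h`: the probability that the survivor playing `σ` is not eaten during the next
`T` rounds, when the zombies stand at `z`, the earlier configurations were `h` (most recent first)
and the survivor now chooses the vertex `σ (z :: h)`.  He is eaten if a zombie is on his vertex,
either after his own choice or after the move of the zombies. -/
noncomputable def surv (G : SimpleGraph V) {k : ℕ} (σ : Strategy V k) :
    ℕ → (Fin k → V) → List (Fin k → V) → ℝ≥0∞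
  | 0, z, h => if ∃ i, z i = σ (z :: h) then 0 else 1
  | T + 1, z, h =>
      if ∃ i, z i = σ (z :: h) then 0 else
        ∑ z' : Fin k → V, (∏ i, stepProb G (z i) (σ (z :: h)) (z' i)) *
          (if ∃ i, z' i = σ (z :: h) then 0 else surv G σ T z' (z :: h))

/-- The probability that the survivor playing `σ` is not eaten during the first `T` rounds, the
`k` zombies starting at independent uniformly random vertices. -/
noncomputable def survProb (G : SimpleGraph V) {k : ℕ} (σ : Strategy V k) (T : ℕ) : ℝ≥0∞ :=
  ∑ z : Fin k → V, ((Fintype.card V : ℝ≥0∞)⁻¹) ^ k * surv G σ T z []

/-- `s_k(G)`: the probability that the survivor is never eaten (the infimum over `T` of the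
probabilities of not being eaten in the first `T` rounds), under optimal play (the supremum over
all legal strategies). -/
noncomputable def winProb (G : SimpleGraph V) (k : ℕ) : ℝ≥0∞ :=
  ⨆ σ : {σ : Strategy V k // Legal G σ}, ⨅ T : ℕ, survProb G σ.1 T

/-- The zombie number `z(G)`: the least `k` with `s_k(G) ≤ 1/2`. -/
noncomputable def zombieNumber (G : SimpleGraph V) : ℕ :=
  sInf {k : ℕ | winProb G k ≤ 1 / 2}

/-- The toroidal `n × n` grid `C_n □ C_n`. -/
def torus (n : ℕ) : SimpleGraph (Fin n × Fin n) :=
  (SimpleGraph.cycleGraph n).boxProd (SimpleGraph.cycleGraph n)

end Run7.h168.Zombie
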