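import Pool.Agent.Run7.h168.ZTorus

open scoped ENNReal

namespace Run7.h168.Zombie

theorem mass_ge (n : ℕ) :
    (n : ℝ) * Real.sqrt n / 204 ≤
      max 1 ((((n - 2) / 4 : ℕ) : ℝ) * Real.sqrt ((n - 2) / 4 : ℕ) / 9) := by
  have hn0 : (0 : ℝ) ≤ n := Nat.cast_nonneg _
  rcases Nat.lt_or_ge n 10 with h | h
  · refine le_trans ?_ (le_max_left _ _)
    have h1 : (n : ℝ) ≤ 9 := by exact_mod_cast Nat.lt_succ_iff.1 h
    have h2 : Real.sqrt n ≤ 3 := by
      rw [Real.sqrt_le_left (by norm_num)]; linarith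
    have h3 := Real.sqrt_nonneg (n : ℝ)
    nlinarith
  · refine le_trans ?_ (le_max_right _ _)
    set T : ℕ := (n - 2) / 4 with hT
    have hT8 : n ≤ 8 * T := by omega
    have hTr : (n : ℝ) / 8 ≤ T := by
      have : (n : ℝ) ≤ 8 * T := by exact_mod_cast hT8
      linarith
    set s : ℝ := Real.sqrt n with hs
    set t : ℝ := Real.sqrt T with ht
    have hs0 : 0 ≤ s := Real.sqrt_nonneg _
    have ht0 : 0 ≤ t := Real.sqrt_nonneg _
    have hss : s * s = n := Real.mul_self_sqrt hn0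
    have htt : t * t = T := Real.mul_self_sqrt (Nat.cast_nonneg _)
    -- s ≤ (17/6) t
    have hst : s ≤ 17 / 6 * t := by
      by_contra hc
      push Not at hc
      nlinarith
    have h1 : (n : ℝ) * s ≤ 8 * T * (17 / 6 * t) :=
      mul_le_mul (by linarith) hst hs0 (by positivity)
    have h2 : 0 ≤ (T : ℝ) * t := by positivity
    nlinarith

theorem final_real (n : ℕ) (hn : 3 ≤ n) (k T : ℕ) (hT : 4 * T ≤ n) (m : ℝ)
    (hm : 2 * (n : ℝ) ≤ k * (m / (n * n : ℝ))) :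
    ((n : ℝ) * n) * (5 ^ T * Real.exp (-(m / (n * n : ℝ))) ^ k) ≤ 1 / 2 := by
  have hnr : (3 : ℝ) ≤ n := by exact_mod_cast hn
  have h1 : Real.exp (-(m / (n * n : ℝ))) ^ k ≤ Real.exp (-(2 * (n : ℝ))) := by
    rw [← Real.exp_nat_mul]
    refine Real.exp_le_exp.2 ?_
    linarith
  have h2 : (5 : ℝ) ^ T ≤ Real.exp (n / 2) := by
    have e1 : (5 : ℝ) ≤ Real.exp 2 := by
      have := Real.quadratic_le_exp_of_nonneg (show (0 : ℝ) ≤ 2 by norm_num)
      linarith
    calc (5 : ℝ) ^ T ≤ (Real.exp 2) ^ T := pow_le_pow_left₀ (by norm_num) e1 T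
      _ = Real.exp (T * 2) := by rw [← Real.exp_nat_mul]
      _ ≤ Real.exp (n / 2) := by
        refine Real.exp_le_exp.2 ?_
        have : (4 : ℝ) * T ≤ n := by exact_mod_cast hT
        linarith
  have h3 : (n : ℝ) * n ≤ 2 * Real.exp n := by
    have := Real.quadratic_le_exp_of_nonneg (show (0 : ℝ) ≤ n by linarith)
    nlinarith
  have h4 : Real.exp (-(n / 2 : ℝ)) ≤ 1 / 4 := by
    have e1 : (13 / 8 : ℝ) ≤ Real.exp (1 / 2) := by
      have := Real.quadratic_le_exp_of_nonneg (show (0 : ℝ) ≤ 1 / 2 by norm_num)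
      linarith
    have e2 : (4 : ℝ) ≤ Real.exp (n / 2) := by
      calc (4 : ℝ) ≤ (13 / 8 : ℝ) ^ 3 := by norm_num
        _ ≤ (Real.exp (1 / 2)) ^ 3 := pow_le_pow_left₀ (by norm_num) e1 3
        _ = Real.exp (3 * (1 / 2)) := by rw [← Real.exp_nat_mul]; norm_num
        _ ≤ Real.exp (n / 2) := Real.exp_le_exp.2 (by linarith)
    rw [Real.exp_neg, inv_le_comm₀ (Real.exp_pos _) (by norm_num)]
    linarith
  calc ((n : ℝ) * n) * (5 ^ T * Real.exp (-(m / (n * n : ℝ))) ^ k)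
      ≤ (2 * Real.exp n) * (Real.exp (n / 2) * Real.exp (-(2 * (n : ℝ)))) := by
        refine mul_le_mul h3 (mul_le_mul h2 h1 (by positivity) (by positivity)) (by positivity)
          (by positivity)
    _ = 2 * Real.exp (-(n / 2 : ℝ)) := by
        rw [← Real.exp_add, mul_assoc, ← Real.exp_add]; congr 2; ring
    _ ≤ 2 * (1 / 4) := by linarith
    _ = 1 / 2 := by norm_num

theorem upper (n : ℕ) (hn : 3 ≤ n) (k : ℕ) (hk : 410 * ((n : ℝ) * Real.sqrt n) ≤ k) :
    winProb (torus n) k ≤ 1 / 2 := by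
  have : NeZero n := ⟨by omega⟩
  have hn2 : 2 ≤ n := by omega
  set T : ℕ := (n - 2) / 4 with hT
  set m : ℝ := max 1 ((T : ℝ) * Real.sqrt T / 9) with hm
  have hcard : Fintype.card (Fin n × Fin n) = n * n := by simp
  have hbound := winProb_le_of_bound (torus n) 5 (card_cnbhd_le hn2) k T
    (ENNReal.ofReal (Real.exp (-(m / (Fintype.card (Fin n × Fin n) : ℝ))))) (by
      intro v l hl hlen
      refine sum_esc_le (torus n) torus_connected l v m (le_trans zero_le_one (le_max_left _ _)) ?_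
      have := sum_cap_ge hn2 l v hl (by rw [hlen]; omega)
      rw [hlen] at this
      exact this)
  refine hbound.trans ?_
  rw [hcard]
  have hreal : ((n : ℝ) * n) * (5 ^ T * Real.exp (-(m / (n * n : ℝ))) ^ k) ≤ 1 / 2 := by
    refine final_real n hn k T (by omega) m ?_
    have hmass := mass_ge n
    rw [← hT, ← hm] at hmass
    have hnr : (0 : ℝ) < n := by exact_mod_cast (by omega : 0 < n)
    have hs0 : 0 ≤ Real.sqrt n := Real.sqrt_nonneg _
    have hss : Real.sqrt n * Real.sqrt n = n := Real.mul_self_sqrt hnr.le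
    rw [mul_div_assoc', le_div_iff₀ (by positivity)]
    calc 2 * (n : ℝ) * (n * n) ≤ (410 * ((n : ℝ) * Real.sqrt n)) * ((n : ℝ) * Real.sqrt n / 204) := by
          have : (410 * ((n : ℝ) * Real.sqrt n)) * ((n : ℝ) * Real.sqrt n / 204) =
              410 / 204 * (n * n * (Real.sqrt n * Real.sqrt n)) := by ring
          rw [this, hss]
          have : 0 ≤ (n : ℝ) * n * n := by positivity
          nlinarith
      _ ≤ k * m := mul_le_mul hk hmass (by positivity) (Nat.cast_nonneg _)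
  have hconv : ((n * n : ℕ) : ℝ≥0∞) * (((5 : ℕ) : ℝ≥0∞) ^ T *
      ENNReal.ofReal (Real.exp (-(m / ((n * n : ℕ) : ℝ)))) ^ k) =
      ENNReal.ofReal (((n : ℝ) * n) * (5 ^ T * Real.exp (-(m / (n * n : ℝ))) ^ k)) := by
    rw [ENNReal.ofReal_mul (by positivity), ENNReal.ofReal_mul (by positivity),
      ENNReal.ofReal_mul (by positivity), ENNReal.ofReal_pow (by positivity),
      ENNReal.ofReal_pow (by positivity), ENNReal.ofReal_natCast]
    push_cast
    simp
  rw [hconv]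
  calc ENNReal.ofReal _ ≤ ENNReal.ofReal (1 / 2) := ENNReal.ofReal_le_ofReal hreal
    _ = 1 / 2 := by
      rw [ENNReal.ofReal_div_of_pos (by norm_num)]; simp

theorem main (n : ℕ) (hn : 3 ≤ n) :
    ∃ k : ℕ, (k : ℝ) ≤ 500 * (n : ℝ) ^ (3 / 2 : ℝ) ∧ winProb (torus n) k ≤ 1 / 2 ∧
      zombieNumber (torus n) ≤ k := by
  have hnr : (3 : ℝ) ≤ n := by exact_mod_cast hn
  have hpow : (n : ℝ) ^ (3 / 2 : ℝ) = (n : ℝ) * Real.sqrt n := by
    rw [show (3 / 2 : ℝ) = 1 + 1 / 2 by norm_num, Real.rpow_add (by linarith), Real.rpow_one,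
      Real.sqrt_eq_rpow]
  set k : ℕ := ⌈410 * ((n : ℝ) * Real.sqrt n)⌉₊ with hk
  have h1 := upper n hn k (Nat.le_ceil _)
  refine ⟨k, ?_, h1, Nat.sInf_le h1⟩
  rw [hpow]
  have h2 : (k : ℝ) < 410 * ((n : ℝ) * Real.sqrt n) + 1 := Nat.ceil_lt_add_one (by positivity)
  have h3 : 1 ≤ Real.sqrt n := Real.one_le_sqrt.2 (by linarith)
  nlinarith

end Run7.h168.Zombie
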