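import Pool.Agent.Run7.h168.ZDef

/-!
The union bound over fixed paths of the survivor.
-/

open scoped ENNReal

namespace Run7.h168.Zombie

set_option linter.unusedSectionVars false

variable {V : Type*} [Fintype V] [DecidableEq V]

/-- Closed neighbourhood. -/
noncomputable def cnbhd (G : SimpleGraph V) (v : V) : Finset V := by
  classical exact Finset.univ.filter fun w => w = v ∨ G.Adj v w

theorem mem_cnbhd (G : SimpleGraph V) (v w : V) : w ∈ cnbhd G v ↔ w = v ∨ G.Adj v w := by
  classical
  unfold cnbhd
  simp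

/-- Probability that a zombie starting at `z` does not catch the survivor following `v :: l`. -/
noncomputable def esc (G : SimpleGraph V) : List V → V → V → ℝ≥0∞
  | [], v, z => if z = v then 0 else 1
  | (v' :: l), v, z => if z = v then 0 else
      ∑ w, stepProb G z v w * (if w = v then 0 else esc G l v' w)

/-- Probability that a zombie starting at `z` catches the survivor following `v :: l`. -/
noncomputable def cap (G : SimpleGraph V) : List V → V → V → ℝ≥0∞
  | [], v, z => if z = v then 1 else 0
  | (v' :: l), v, z => if z = v then 1 else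
      ∑ w, stepProb G z v w * (if w = v then 1 else cap G l v' w)

/-- Sum over all paths of length `T` starting at `v`. -/
noncomputable def walksum (G : SimpleGraph V) : ℕ → V → (List V → ℝ≥0∞) → ℝ≥0∞
  | 0, _, F => F []
  | T + 1, v, F => ∑ v' ∈ cnbhd G v, walksum G T v' (fun l => F (v' :: l))

theorem walksum_mono (G : SimpleGraph V) (T : ℕ) (v : V) {F F' : List V → ℝ≥0∞}
    (h : ∀ l, F l ≤ F' l) : walksum G T v F ≤ walksum G T v F' := by
  induction T generalizing v F F' with
  | zero => exact h _
  | succ T ih => exact Finset.sum_le_sum fun v' _ => ih v' fun l => h _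

theorem walksum_sum (G : SimpleGraph V) {ι : Type*} (s : Finset ι) (T : ℕ) (v : V)
    (c : ι → ℝ≥0∞) (F : ι → List V → ℝ≥0∞) :
    ∑ a ∈ s, c a * walksum G T v (F a) = walksum G T v (fun l => ∑ a ∈ s, c a * F a l) := by
  induction T generalizing v F with
  | zero => rfl
  | succ T ih =>
    simp only [walksum]
    simp_rw [Finset.mul_sum]
    rw [Finset.sum_comm]
    exact Finset.sum_congr rfl fun v' _ => ih v' _

/-- Valid continuation of the survivor path. -/
def Valid (G : SimpleGraph V) : V → List V → Prop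
  | _, [] => True
  | v, v' :: l => v' ∈ cnbhd G v ∧ Valid G v' l

theorem walksum_le (G : SimpleGraph V) (D : ℕ) (hD : ∀ v, (cnbhd G v).card ≤ D) (B : ℝ≥0∞)
    (T : ℕ) (v : V) (F : List V → ℝ≥0∞) (h : ∀ l, Valid G v l → l.length = T → F l ≤ B) :
    walksum G T v F ≤ (D : ℝ≥0∞) ^ T * B := by
  induction T generalizing v F with
  | zero => simpa [walksum] using h [] trivial rfl
  | succ T ih =>
    rw [walksum]
    calc ∑ v' ∈ cnbhd G v, walksum G T v' (fun l => F (v' :: l))
        ≤ ∑ _v' ∈ cnbhd G v, (D : ℝ≥0∞) ^ T * B :=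
          Finset.sum_le_sum fun v' hv' => ih v' _ fun l hl hT => h _ ⟨hv', hl⟩ (by simp [hT])
      _ = (cnbhd G v).card * ((D : ℝ≥0∞) ^ T * B) := by rw [Finset.sum_const, nsmul_eq_mul]
      _ ≤ D * ((D : ℝ≥0∞) ^ T * B) := by
          gcongr
          exact_mod_cast hD v
      _ = _ := by rw [pow_succ]; ring

theorem sum_prod_pi {k : ℕ} (f : Fin k → V → ℝ≥0∞) :
    ∑ z : Fin k → V, ∏ i, f i (z i) = ∏ i, ∑ w, f i w := by
  rw [Finset.prod_univ_sum, Fintype.piFinset_univ]

theorem surv_le (G : SimpleGraph V) {k : ℕ} (σ : Strategy V k) (hσ : Legal G σ) (T : ℕ)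
    (z : Fin k → V) (h : List (Fin k → V)) :
    surv G σ T z h ≤ walksum G T (σ (z :: h)) (fun l => ∏ i, esc G l (σ (z :: h)) (z i)) := by
  induction T generalizing z h with
  | zero =>
    rw [surv, walksum]
    split_ifs with hz
    · exact zero_le
    · push Not at hz
      refine le_of_eq (Finset.prod_eq_one fun i _ => ?_).symm
      rw [esc, if_neg (hz i)]
  | succ T ih =>
    rw [surv]
    split_ifs with hz
    · exact zero_le
    push Not at hz
    set v := σ (z :: h) with hv
    have step1 : ∀ z' : Fin k → V,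
        (if ∃ i, z' i = v then 0 else surv G σ T z' (z :: h)) ≤
          ∑ v' ∈ cnbhd G v, walksum G T v'
            (fun l => ∏ i, (if z' i = v then 0 else esc G l v' (z' i))) := by
      intro z'
      split_ifs with hz'
      · exact zero_le
      · push Not at hz'
        refine (ih z' (z :: h)).trans ?_
        have hmem : σ (z' :: z :: h) ∈ cnbhd G v := (mem_cnbhd _ _ _).2 (hσ z' z h)
        refine le_trans (le_of_eq ?_) (Finset.single_le_sum (f := fun v' => walksum G T v'
            (fun l => ∏ i, (if z' i = v then 0 else esc G l v' (z' i))))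
            (fun _ _ => zero_le) hmem)
        congr 1
        funext l
        exact Finset.prod_congr rfl fun i _ => by rw [if_neg (hz' i)]
    calc ∑ z' : Fin k → V, (∏ i, stepProb G (z i) v (z' i)) *
          (if ∃ i, z' i = v then 0 else surv G σ T z' (z :: h))
        ≤ ∑ z' : Fin k → V, (∏ i, stepProb G (z i) v (z' i)) *
          ∑ v' ∈ cnbhd G v, walksum G T v'
            (fun l => ∏ i, (if z' i = v then 0 else esc G l v' (z' i))) :=
          Finset.sum_le_sum fun z' _ => mul_le_mul_right (step1 z') _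
      _ = ∑ v' ∈ cnbhd G v, ∑ z' : Fin k → V, (∏ i, stepProb G (z i) v (z' i)) *
            walksum G T v' (fun l => ∏ i, (if z' i = v then 0 else esc G l v' (z' i))) := by
          simp_rw [Finset.mul_sum]
          rw [Finset.sum_comm]
      _ = ∑ v' ∈ cnbhd G v, walksum G T v' (fun l => ∑ z' : Fin k → V,
            (∏ i, stepProb G (z i) v (z' i)) *
              ∏ i, (if z' i = v then 0 else esc G l v' (z' i))) :=
          Finset.sum_congr rfl fun v' _ => walksum_sum _ _ _ _ _ _
      _ = ∑ v' ∈ cnbhd G v, walksum G T v' (fun l => ∏ i, esc G (v' :: l) v (z i)) := by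
          refine Finset.sum_congr rfl fun v' _ => ?_
          congr 1
          funext l
          simp_rw [← Finset.prod_mul_distrib]
          rw [sum_prod_pi (fun i w => stepProb G (z i) v w * (if w = v then 0 else esc G l v' w))]
          refine Finset.prod_congr rfl fun i _ => ?_
          rw [esc, if_neg (hz i)]

theorem winProb_le (G : SimpleGraph V) (k T : ℕ) :
    winProb G k ≤ ∑ v, walksum G T v
      (fun l => ((Fintype.card V : ℝ≥0∞)⁻¹ * ∑ z, esc G l v z) ^ k) := by
  refine iSup_le fun σ => (iInf_le _ T).trans ?_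
  rw [survProb]
  have h1 : ∀ z : Fin k → V, surv G σ.1 T z [] ≤
      ∑ v, walksum G T v (fun l => ∏ i, esc G l v (z i)) := fun z =>
    (surv_le G σ.1 σ.2 T z []).trans
      (Finset.single_le_sum (f := fun v => walksum G T v (fun l => ∏ i, esc G l v (z i)))
        (fun _ _ => zero_le) (Finset.mem_univ _))
  calc ∑ z : Fin k → V, ((Fintype.card V : ℝ≥0∞)⁻¹) ^ k * surv G σ.1 T z []
      ≤ ∑ z : Fin k → V, ((Fintype.card V : ℝ≥0∞)⁻¹) ^ k *
          ∑ v, walksum G T v (fun l => ∏ i, esc G l v (z i)) :=
        Finset.sum_le_sum fun z _ => mul_le_mul_right (h1 z) _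
    _ = ∑ v, ∑ z : Fin k → V, ((Fintype.card V : ℝ≥0∞)⁻¹) ^ k *
          walksum G T v (fun l => ∏ i, esc G l v (z i)) := by
        simp_rw [Finset.mul_sum]
        rw [Finset.sum_comm]
    _ = ∑ v, walksum G T v (fun l => ∑ z : Fin k → V, ((Fintype.card V : ℝ≥0∞)⁻¹) ^ k *
          ∏ i, esc G l v (z i)) :=
        Finset.sum_congr rfl fun v _ => walksum_sum _ _ _ _ _ _
    _ = _ := by
        refine Finset.sum_congr rfl fun v _ => ?_
        congr 1
        funext l
        rw [← Finset.mul_sum, sum_prod_pi (fun _ w => esc G l v w), Finset.prod_const,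
          Finset.card_univ, Fintype.card_fin, mul_pow]

theorem winProb_le_of_bound (G : SimpleGraph V) (D : ℕ) (hD : ∀ v, (cnbhd G v).card ≤ D)
    (k T : ℕ) (q : ℝ≥0∞)
    (h : ∀ v l, Valid G v l → l.length = T →
      (Fintype.card V : ℝ≥0∞)⁻¹ * ∑ z, esc G l v z ≤ q) :
    winProb G k ≤ Fintype.card V * ((D : ℝ≥0∞) ^ T * q ^ k) := by
  refine (winProb_le G k T).trans ?_
  calc ∑ v, walksum G T v (fun l => ((Fintype.card V : ℝ≥0∞)⁻¹ * ∑ z, esc G l v z) ^ k)
      ≤ ∑ _v : V, (D : ℝ≥0∞) ^ T * q ^ k :=
        Finset.sum_le_sum fun v _ => walksum_le G D hD _ T v _ fun l hl hT =>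
          pow_le_pow_left' (h v l hl hT) k
    _ = _ := by rw [Finset.sum_const, nsmul_eq_mul, Finset.card_univ]

theorem mem_closer (G : SimpleGraph V) (z v w : V) :
    w ∈ closer G z v ↔ G.Adj z w ∧ G.dist w v + 1 = G.dist z v := by
  classical
  unfold closer
  simp

theorem closer_nonempty (G : SimpleGraph V) (hG : G.Connected) {z v : V} (h : z ≠ v) :
    (closer G z v).Nonempty := by
  obtain ⟨p, hp⟩ := hG.exists_walk_length_eq_dist z v
  cases p with
  | nil => exact absurd rfl h
  | cons hadj q =>
    rename_i w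
    refine ⟨w, (mem_closer _ _ _ _).2 ⟨hadj, ?_⟩⟩
    rw [SimpleGraph.Walk.length_cons] at hp
    have h1 : G.dist w v ≤ q.length := SimpleGraph.dist_le q
    have h2 : G.dist z v ≤ G.dist w v + 1 := by
      obtain ⟨q', hq'⟩ := hG.exists_walk_length_eq_dist w v
      rw [← hq']
      exact SimpleGraph.dist_le (SimpleGraph.Walk.cons hadj q')
    omega

theorem sum_stepProb_mul (G : SimpleGraph V) (z v : V) (F : V → ℝ≥0∞) :
    ∑ w, stepProb G z v w * F w = ((closer G z v).card : ℝ≥0∞)⁻¹ * ∑ w ∈ closer G z v, F w := by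
  rw [Finset.mul_sum]
  simp only [stepProb, ite_mul, zero_mul]
  rw [← Finset.sum_filter]
  congr 1
  ext w
  simp

theorem sum_stepProb (G : SimpleGraph V) (hG : G.Connected) {z v : V} (h : z ≠ v) :
    ∑ w, stepProb G z v w = 1 := by
  have := sum_stepProb_mul G z v (fun _ => 1)
  simp only [mul_one] at this
  rw [this, Finset.sum_const, nsmul_eq_mul, mul_one]
  refine ENNReal.inv_mul_cancel ?_ (ENNReal.natCast_ne_top _)
  have := (closer_nonempty G hG h).card_pos
  exact_mod_cast this.ne'

theorem esc_add_cap (G : SimpleGraph V) (hG : G.Connected) (l : List V) (v z : V) :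
    esc G l v z + cap G l v z = 1 := by
  induction l generalizing v z with
  | nil => rw [esc, cap]; split_ifs <;> simp
  | cons v' l ih =>
    rw [esc, cap]
    split_ifs with h
    · simp
    · rw [← Finset.sum_add_distrib]
      have : ∀ w, stepProb G z v w * (if w = v then 0 else esc G l v' w) +
          stepProb G z v w * (if w = v then 1 else cap G l v' w) = stepProb G z v w := by
        intro w
        rw [← mul_add]
        split_ifs
        · simp
        · rw [ih, mul_one]
      simp_rw [this]
      exact sum_stepProb G hG h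

theorem sum_esc_le (G : SimpleGraph V) (hG : G.Connected) (l : List V) (v : V) (m : ℝ)
    (hm : 0 ≤ m) (h : ENNReal.ofReal m ≤ ∑ z, cap G l v z) :
    (Fintype.card V : ℝ≥0∞)⁻¹ * ∑ z, esc G l v z ≤
      ENNReal.ofReal (Real.exp (-(m / Fintype.card V))) := by
  have hN : 0 < Fintype.card V := Fintype.card_pos_iff.2 ⟨v⟩
  have h1 : ∑ z, esc G l v z + ∑ z, cap G l v z = Fintype.card V := by
    rw [← Finset.sum_add_distrib]
    simp_rw [esc_add_cap G hG]
    simp
  have h2 : ∑ z, esc G l v z ≤ ENNReal.ofReal (Fintype.card V - m) := by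
    have h3 : ∑ z, esc G l v z + ENNReal.ofReal m ≤ Fintype.card V := by
      rw [← h1]; exact add_le_add le_rfl h
    have h4 : ∑ z, esc G l v z ≤ (Fintype.card V : ℝ≥0∞) - ENNReal.ofReal m :=
      ENNReal.le_sub_of_add_le_right ENNReal.ofReal_ne_top h3
    rwa [← ENNReal.ofReal_natCast, ← ENNReal.ofReal_sub _ hm] at h4
  have hNr : (0 : ℝ) < Fintype.card V := by exact_mod_cast hN
  calc (Fintype.card V : ℝ≥0∞)⁻¹ * ∑ z, esc G l v z
      ≤ (Fintype.card V : ℝ≥0∞)⁻¹ * ENNReal.ofReal (Fintype.card V - m) := mul_le_mul_right h2 _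
    _ = ENNReal.ofReal ((Fintype.card V : ℝ)⁻¹ * (Fintype.card V - m)) := by
        rw [ENNReal.ofReal_mul (by positivity), ENNReal.ofReal_inv_of_pos hNr,
          ENNReal.ofReal_natCast]
    _ ≤ _ := by
        refine ENNReal.ofReal_le_ofReal ?_
        have := Real.add_one_le_exp (-(m / Fintype.card V))
        refine le_trans (le_of_eq ?_) this
        field_simp
        ring

end Run7.h168.Zombie
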