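import Pool.Agent.Run7.h168.ZLine

/-!
The lattice version: capture probabilities of a greedy random pursuer on `ℤ × ℤ` in relative
coordinates, against a survivor following a fixed list of steps, and a lower bound for their sum
over all starting points.
-/

open scoped ENNReal

namespace Run7.h168.Zombie

/-- Capture probability (relative position `(x, y)` = zombie minus survivor, zombie to move,
`l` = the future steps of the survivor). -/
noncomputable def Grel : List (ℤ × ℤ) → ℤ → ℤ → ℝ≥0∞
  | [], x, y => if x = 0 ∧ y = 0 then 1 else 0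
  | (d :: l), x, y =>
      if x = 0 ∧ y = 0 then 1
      else if y = 0 then (if x - x.sign = 0 ∧ y = 0 then 1 else Grel l (x - x.sign - d.1) (y - d.2))
      else if x = 0 then (if x = 0 ∧ y - y.sign = 0 then 1 else Grel l (x - d.1) (y - y.sign - d.2))
      else (Grel l (x - x.sign - d.1) (y - d.2) + Grel l (x - d.1) (y - y.sign - d.2)) / 2

/-- Value after the move of the zombie (to relative position `(x, y)`). -/
noncomputable def hat (d : ℤ × ℤ) (l : List (ℤ × ℤ)) (x y : ℤ) : ℝ≥0∞ :=
  if x = 0 ∧ y = 0 then 1 else Grel l (x - d.1) (y - d.2)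

theorem Grel_cons (d : ℤ × ℤ) (l : List (ℤ × ℤ)) (x y : ℤ) :
    Grel (d :: l) x y =
      if x = 0 ∧ y = 0 then 1
      else if y = 0 then hat d l (x - x.sign) 0
      else if x = 0 then hat d l 0 (y - y.sign)
      else (hat d l (x - x.sign) y + hat d l x (y - y.sign)) / 2 := by
  rw [Grel]
  by_cases hx : x = 0 <;> by_cases hy : y = 0 <;> simp [hx, hy, hat]

theorem Grel_le_one (l : List (ℤ × ℤ)) (x y : ℤ) : Grel l x y ≤ 1 := by
  induction l generalizing x y with
  | nil => rw [Grel]; split_ifs <;> simp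
  | cons d l ih =>
    have hh : ∀ x y, hat d l x y ≤ 1 := by
      intro x y; unfold hat; split_ifs
      · exact le_rfl
      · exact ih _ _
    rw [Grel_cons]
    split_ifs
    · exact le_rfl
    · exact hh _ _
    · exact hh _ _
    · rw [ENNReal.div_le_iff (by norm_num) (by norm_num)]
      calc hat d l (x - x.sign) y + hat d l x (y - y.sign) ≤ 1 + 1 := add_le_add (hh _ _) (hh _ _)
        _ = 1 * 2 := by norm_num

theorem Grel_swap (l : List (ℤ × ℤ)) (x y : ℤ) :
    Grel (l.map Prod.swap) y x = Grel l x y := by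
  induction l generalizing x y with
  | nil => simp [Grel, and_comm]
  | cons d l ih =>
    have hh : ∀ x y, hat d.swap (l.map Prod.swap) y x = hat d l x y := by
      intro x y; unfold hat
      rw [Prod.fst_swap, Prod.snd_swap, ih]
      simp only [and_comm]
    rw [List.map_cons, Grel_cons, Grel_cons]
    by_cases hx : x = 0 <;> by_cases hy : y = 0
    · simp [hx, hy]
    · simp only [hx, hy, false_and, and_false, if_false, if_true]
      exact hh _ _
    · simp only [hx, hy, false_and, and_false, if_false, if_true]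
      exact hh _ _
    · simp only [hx, hy, false_and, if_false]
      rw [hh, hh, add_comm]

/-- Pushing a sum towards the origin. -/
theorem tsum_push (φ : ℤ → ℝ≥0∞) :
    ∑' x : ℤ, (if x = 0 then 0 else φ (x - x.sign)) = φ 0 + ∑' x : ℤ, φ x := by
  have h1 : ∀ x : ℤ, (if x = 0 then 0 else φ (x - x.sign)) =
      (if 1 ≤ x then φ (x - 1) else 0) + (if x ≤ -1 then φ (x + 1) else 0) := by
    intro x
    rcases lt_trichotomy x 0 with h | h | h
    · rw [if_neg h.ne, if_neg (by omega), if_pos (by omega), Int.sign_eq_neg_one_of_neg h, zero_add]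
      congr 1
    · subst h; simp
    · rw [if_neg h.ne', if_pos (by omega), if_neg (by omega), Int.sign_eq_one_of_pos h, add_zero]
  simp_rw [h1]
  rw [ENNReal.tsum_add]
  have h2 : ∑' x : ℤ, (if 1 ≤ x then φ (x - 1) else 0) = ∑' x : ℤ, (if 0 ≤ x then φ x else 0) := by
    rw [← (Equiv.addRight (1 : ℤ)).tsum_eq]
    refine tsum_congr fun x => ?_
    simp only [Equiv.coe_addRight, add_sub_cancel_right]
    by_cases h : 0 ≤ x
    · rw [if_pos (by omega), if_pos h]
    · rw [if_neg (by omega), if_neg h]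
  have h3 : ∑' x : ℤ, (if x ≤ -1 then φ (x + 1) else 0) = ∑' x : ℤ, (if x ≤ 0 then φ x else 0) := by
    rw [← (Equiv.addRight (-1 : ℤ)).tsum_eq]
    refine tsum_congr fun x => ?_
    simp only [Equiv.coe_addRight, neg_add_cancel_right]
    by_cases h : x ≤ 0
    · rw [if_pos (by omega), if_pos h]
    · rw [if_neg (by omega), if_neg h]
  rw [h2, h3, ← ENNReal.tsum_add]
  have h4 : ∀ x : ℤ, (if 0 ≤ x then φ x else 0) + (if x ≤ 0 then φ x else 0) =
      (if x = 0 then φ 0 else 0) + φ x := by
    intro x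
    rcases lt_trichotomy x 0 with h | h | h
    · rw [if_neg (by omega), if_pos (by omega), if_neg (by omega)]
    · subst h; simp
    · rw [if_pos (by omega), if_neg (by omega), if_neg (by omega), add_comm]
  simp_rw [h4]
  rw [ENNReal.tsum_add, tsum_ite_eq]

/-- Splitting off the value at the origin. -/
theorem tsum_split (φ : ℤ → ℝ≥0∞) :
    ∑' x : ℤ, φ x = φ 0 + ∑' x : ℤ, (if x = 0 then 0 else φ x) := by
  have h4 : ∀ x : ℤ, φ x = (if x = 0 then φ 0 else 0) + (if x = 0 then 0 else φ x) := by
    intro x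
    by_cases h : x = 0
    · simp [h]
    · simp [h]
  conv_lhs => rw [tsum_congr h4]
  rw [ENNReal.tsum_add, tsum_ite_eq]

/-- Row sums. -/
noncomputable def Rw (l : List (ℤ × ℤ)) (y : ℤ) : ℝ≥0∞ := ∑' x : ℤ, Grel l x y

/-- Total mass. -/
noncomputable def Ms (l : List (ℤ × ℤ)) : ℝ≥0∞ := ∑' y : ℤ, Rw l y

theorem hat_ge (d : ℤ × ℤ) (l : List (ℤ × ℤ)) (x y : ℤ) :
    Grel l (x - d.1) (y - d.2) ≤ hat d l x y := by
  unfold hat; split_ifs
  · exact Grel_le_one _ _ _
  · exact le_rfl

theorem hat_zero (d : ℤ × ℤ) (l : List (ℤ × ℤ)) : hat d l 0 0 = 1 := by simp [hat]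

theorem tsum_shift (φ : ℤ → ℝ≥0∞) (c : ℤ) : ∑' x : ℤ, φ (x - c) = ∑' x : ℤ, φ x := by
  have := (Equiv.subRight c).tsum_eq φ
  simpa using this

theorem tsum_hat_row_ge (d : ℤ × ℤ) (l : List (ℤ × ℤ)) (y : ℤ) :
    Rw l (y - d.2) ≤ ∑' x : ℤ, hat d l x y := by
  rw [Rw, ← tsum_shift (fun x => Grel l x (y - d.2)) d.1]
  exact ENNReal.tsum_le_tsum fun x => hat_ge _ _ _ _

theorem Rw_cons_zero (d : ℤ × ℤ) (l : List (ℤ × ℤ)) :
    Rw (d :: l) 0 = 1 + (1 + ∑' x : ℤ, hat d l x 0) := by
  rw [Rw, tsum_split]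
  have h1 : ∀ x : ℤ, (if x = 0 then 0 else Grel (d :: l) x 0) =
      (if x = 0 then 0 else hat d l (x - x.sign) 0) := by
    intro x
    by_cases h : x = 0
    · simp [h]
    · rw [if_neg h, if_neg h, Grel_cons, if_neg (by simp [h]), if_pos rfl]
  simp_rw [h1]
  rw [tsum_push (fun x => hat d l x 0), hat_zero, Grel_cons]
  simp

theorem Rw_cons_ne (d : ℤ × ℤ) (l : List (ℤ × ℤ)) (y : ℤ) (hy : y ≠ 0) :
    Rw (d :: l) y = ((hat d l 0 y + ∑' x : ℤ, hat d l x y) +
      (hat d l 0 (y - y.sign) + ∑' x : ℤ, hat d l x (y - y.sign))) / 2 := by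
  have h1 : ∀ x : ℤ, Grel (d :: l) x y =
      (if x = 0 then 0 else hat d l (x - x.sign) y) * 2⁻¹ +
      ((if x = 0 then hat d l 0 (y - y.sign) else 0) + hat d l x (y - y.sign)) * 2⁻¹ := by
    intro x
    rw [Grel_cons, if_neg (by simp [hy]), if_neg hy]
    by_cases h : x = 0
    · subst h
      simp only [if_true, zero_mul, zero_add]
      rw [← two_mul, mul_comm, ← mul_assoc, ENNReal.inv_mul_cancel (by norm_num) (by norm_num),
        one_mul]
    · simp only [h, if_false, zero_add]
      rw [div_eq_mul_inv, add_mul]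
  rw [Rw]
  simp_rw [h1]
  rw [ENNReal.tsum_add, ENNReal.tsum_mul_right, ENNReal.tsum_mul_right, ENNReal.tsum_add,
    tsum_ite_eq, tsum_push (fun x => hat d l x y), ← add_mul, div_eq_mul_inv]

theorem Rw_ge (l : List (ℤ × ℤ)) (y : ℤ) :
    ENNReal.ofReal (2 * A (l.map Prod.snd) y) ≤ Rw l y := by
  induction l generalizing y with
  | nil => simp [A]
  | cons d l ih =>
    have h0 : ∀ y, 0 ≤ A (l.map Prod.snd) y := fun y => A_nonneg _ _
    rw [List.map_cons, A]
    by_cases hy : y = 0
    · subst hy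
      rw [if_pos rfl, Rw_cons_zero]
      have h1 := (ih (-d.2)).trans (by simpa using tsum_hat_row_ge d l 0)
      rw [mul_add, ENNReal.ofReal_add (by norm_num) (by have := h0 (-d.2); positivity), ← add_assoc]
      refine add_le_add ?_ h1
      rw [mul_one, show (2 : ℝ) = 1 + 1 by norm_num, ENNReal.ofReal_add (by norm_num) (by norm_num)]
      simp
    · rw [if_neg hy, Rw_cons_ne _ _ _ hy]
      have h1 := (ih (y - d.2)).trans (tsum_hat_row_ge d l y)
      have h2 := (ih (y - y.sign - d.2)).trans (tsum_hat_row_ge d l (y - y.sign))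
      rw [ENNReal.le_div_iff_mul_le (by norm_num) (by norm_num)]
      have h3 : ENNReal.ofReal (2 * ((A (l.map Prod.snd) (y - d.2) +
          A (l.map Prod.snd) (y - y.sign - d.2)) / 2)) * 2 =
          ENNReal.ofReal (2 * A (l.map Prod.snd) (y - d.2)) +
          ENNReal.ofReal (2 * A (l.map Prod.snd) (y - y.sign - d.2)) := by
        have e2 : (2 : ℝ≥0∞) = ENNReal.ofReal 2 := by simp
        rw [e2, ← ENNReal.ofReal_mul (by have := h0 (y - d.2); have := h0 (y - y.sign - d.2); positivity),
          ← ENNReal.ofReal_add (by have := h0 (y - d.2); positivity)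
            (by have := h0 (y - y.sign - d.2); positivity)]
        congr 1; ring
      rw [h3]
      exact add_le_add (h1.trans le_add_self) (h2.trans le_add_self)

/-- Column sums are row sums of the swapped path. -/
theorem col_eq (l : List (ℤ × ℤ)) (x : ℤ) : ∑' y : ℤ, Grel l x y = Rw (l.map Prod.swap) x := by
  rw [Rw]; exact tsum_congr fun y => (Grel_swap l x y).symm

theorem col_ge (l : List (ℤ × ℤ)) (x : ℤ) :
    ENNReal.ofReal (2 * A (l.map Prod.fst) x) ≤ ∑' y : ℤ, Grel l x y := by
  rw [col_eq]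
  have := Rw_ge (l.map Prod.swap) x
  rwa [List.map_map, show Prod.snd ∘ Prod.swap = (Prod.fst : ℤ × ℤ → ℤ) from rfl] at this

theorem Ms_cons (d : ℤ × ℤ) (l : List (ℤ × ℤ)) :
    Ms (d :: l) = 2 + ∑' x : ℤ, hat d l x 0 + ∑' y : ℤ, hat d l 0 y +
      ∑' y : ℤ, ∑' x : ℤ, hat d l x y := by
  set c : ℤ → ℝ≥0∞ := fun y => hat d l 0 y + ∑' x : ℤ, hat d l x y with hc
  have h1 : ∀ y : ℤ, (if y = 0 then 0 else Rw (d :: l) y) =
      (if y = 0 then 0 else c y) * 2⁻¹ + (if y = 0 then 0 else c (y - y.sign)) * 2⁻¹ := by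
    intro y
    by_cases h : y = 0
    · simp [h]
    · rw [if_neg h, if_neg h, if_neg h, Rw_cons_ne _ _ _ h, div_eq_mul_inv, add_mul]
  have hsum : ∑' y : ℤ, c y = ∑' y : ℤ, hat d l 0 y + ∑' y : ℤ, ∑' x : ℤ, hat d l x y := by
    rw [hc, ENNReal.tsum_add]
  rw [Ms, tsum_split]
  simp_rw [h1]
  rw [ENNReal.tsum_add, ENNReal.tsum_mul_right, ENNReal.tsum_mul_right, tsum_push c, ← add_mul]
  have h2 : ∑' y : ℤ, (if y = 0 then 0 else c y) + (c 0 + ∑' y : ℤ, c y) =
      (∑' y : ℤ, c y) * 2 := by
    rw [← add_assoc, add_comm (∑' y : ℤ, (if y = 0 then 0 else c y)) (c 0), ← tsum_split c, mul_two]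
  rw [h2, mul_assoc, ENNReal.mul_inv_cancel (by norm_num) (by norm_num), mul_one, hsum,
    Rw_cons_zero]
  rw [show (2 : ℝ≥0∞) = 1 + 1 by norm_num]
  ring

theorem Ms_cons_ge (d : ℤ × ℤ) (l : List (ℤ × ℤ)) :
    2 + Rw l (-d.2) + (∑' y : ℤ, Grel l (-d.1) y) + Ms l ≤ Ms (d :: l) := by
  rw [Ms_cons]
  refine add_le_add (add_le_add (add_le_add le_rfl ?_) ?_) ?_
  · simpa using tsum_hat_row_ge d l 0
  · rw [← tsum_shift (fun y => Grel l (-d.1) y) d.2]
    refine ENNReal.tsum_le_tsum fun y => ?_
    simpa using hat_ge d l 0 y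
  · rw [Ms, ← tsum_shift (fun y => Rw l y) d.2]
    exact ENNReal.tsum_le_tsum fun y => tsum_hat_row_ge d l y

/-- A survivor step: stay, or one of the four unit vectors. -/
def IsStep (d : ℤ × ℤ) : Prop := |d.1| + |d.2| ≤ 1

theorem sum_abs_le (l : List (ℤ × ℤ)) (h : ∀ d ∈ l, IsStep d) :
    (l.map fun d => |d.1|).sum + (l.map fun d => |d.2|).sum ≤ l.length := by
  induction l with
  | nil => simp
  | cons d l ih =>
    have h1 := h d (List.mem_cons_self)
    have h2 := ih fun e he => h e (List.mem_cons_of_mem _ he)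
    unfold IsStep at h1
    simp only [List.map_cons, List.sum_cons, List.length_cons]
    push_cast
    linarith

theorem Ms_ge (l : List (ℤ × ℤ)) (h : ∀ d ∈ l, IsStep d) :
    ENNReal.ofReal ((l.length : ℝ) * Real.sqrt l.length / 9) ≤ Ms l := by
  induction l with
  | nil => simp
  | cons d l ih =>
    have ih' := ih fun e he => h e (List.mem_cons_of_mem _ he)
    refine le_trans ?_ (Ms_cons_ge d l)
    -- the two one-dimensional bounds
    have hs := sum_abs_le (d :: l) h
    have hx := col_ge l (-d.1)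
    have hy := Rw_ge l (-d.2)
    have hx1 : 1 + A (l.map Prod.fst) (-d.1) = A ((d :: l).map Prod.fst) 0 := by
      rw [List.map_cons, A, if_pos rfl]
    have hy1 : 1 + A (l.map Prod.snd) (-d.2) = A ((d :: l).map Prod.snd) 0 := by
      rw [List.map_cons, A, if_pos rfl]
    have hnx := A_nonneg (l.map Prod.fst) (-d.1)
    have hny := A_nonneg (l.map Prod.snd) (-d.2)
    have key : Real.sqrt (d :: l).length / 12 ≤
        1 + A (l.map Prod.fst) (-d.1) + A (l.map Prod.snd) (-d.2) := by
      by_cases hc : 2 * ((d :: l).map fun d => |d.1|).sum ≤ ((d :: l).length : ℤ)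
      · have := A_ge_sqrt ((d :: l).map Prod.fst) (by
          rw [List.map_map, List.length_map]; exact hc)
        rw [List.length_map] at this
        linarith
      · have hc' : 2 * ((d :: l).map fun d => |d.2|).sum ≤ ((d :: l).length : ℤ) := by
          push Not at hc; linarith
        have := A_ge_sqrt ((d :: l).map Prod.snd) (by
          rw [List.map_map, List.length_map]; exact hc')
        rw [List.length_map] at this
        linarith
    have hstep : ((d :: l).length : ℝ) * Real.sqrt (d :: l).length / 9 ≤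
        2 + 2 * A (l.map Prod.snd) (-d.2) + 2 * A (l.map Prod.fst) (-d.1) +
          (l.length : ℝ) * Real.sqrt l.length / 9 := by
      set r : ℝ := Real.sqrt (d :: l).length with hr
      set t : ℝ := Real.sqrt l.length with ht
      have hrr : r * r = (l.length : ℝ) + 1 := by
        rw [hr, Real.mul_self_sqrt (Nat.cast_nonneg _)]; push_cast [List.length_cons]; ring
      have htt : t * t = (l.length : ℝ) := Real.mul_self_sqrt (Nat.cast_nonneg _)
      have ht0 : 0 ≤ t := Real.sqrt_nonneg _
      have hr0 : 0 ≤ r := Real.sqrt_nonneg _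
      have hlen : ((d :: l).length : ℝ) = r * r := by rw [hrr]; push_cast [List.length_cons]; ring
      rw [hlen, ← htt]
      have htr : t ≤ r := by
        by_contra hcon; push Not at hcon; nlinarith
      -- r^3 - t^3 ≤ (3/2) r because r^2 - t^2 = 1
      have hd : r * r - t * t = 1 := by rw [hrr, htt]; ring
      have hrt : (r - t) * (r + t) = 1 := by nlinarith
      have hcube : r * r * r - t * t * t ≤ 3 / 2 * r := by
        -- 2(r^3 - t^3) = 2 (r-t)(r^2+rt+t^2) ≤ 3 r (r-t)(r+t) = 3 r
        have h1 : 2 * (r * r + r * t + t * t) ≤ 3 * r * (r + t) := by nlinarith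
        have h2 : (r - t) * (2 * (r * r + r * t + t * t)) ≤ (r - t) * (3 * r * (r + t)) :=
          mul_le_mul_of_nonneg_left h1 (by linarith)
        nlinarith
      linarith
    calc ENNReal.ofReal (((d :: l).length : ℝ) * Real.sqrt (d :: l).length / 9)
        ≤ ENNReal.ofReal (2 + 2 * A (l.map Prod.snd) (-d.2) + 2 * A (l.map Prod.fst) (-d.1) +
          (l.length : ℝ) * Real.sqrt l.length / 9) := ENNReal.ofReal_le_ofReal hstep
      _ = 2 + ENNReal.ofReal (2 * A (l.map Prod.snd) (-d.2)) +
          ENNReal.ofReal (2 * A (l.map Prod.fst) (-d.1)) +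
          ENNReal.ofReal ((l.length : ℝ) * Real.sqrt l.length / 9) := by
        rw [ENNReal.ofReal_add (by positivity) (by positivity),
          ENNReal.ofReal_add (by positivity) (by positivity),
          ENNReal.ofReal_add (by positivity) (by positivity)]
        simp
      _ ≤ _ := add_le_add (add_le_add (add_le_add le_rfl hy) hx) ih'

end Run7.h168.Zombie
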