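import Mathlib

/-!
One dimensional pursuit: a particle at relative position `y` stays or moves one step towards `0`
with probability `1/2` each (it stays if `y = 0`, and this is counted as a visit), then the target
moves by `d`.  Lower bound for the expected number of visits.
-/

namespace Run7.h168.Zombie

/-- Expected number of visits at `0`. -/
noncomputable def A : List ℤ → ℤ → ℝ
  | [], _ => 0
  | (d :: l), y =>
      if y = 0 then 1 + A l (-d) else (A l (y - d) + A l (y - y.sign - d)) / 2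

/-- Second moment of the associated martingale. -/
noncomputable def B2 : List ℤ → ℤ → ℤ → ℝ
  | [], _, w => (w : ℝ) ^ 2
  | (d :: l), y, w =>
      if y = 0 then B2 l (-d) w else (B2 l (y - d) (w - 1) + B2 l (y - y.sign - d) (w + 1)) / 2

/-- Fourth moment of the associated martingale. -/
noncomputable def B4 : List ℤ → ℤ → ℤ → ℝ
  | [], _, w => (w : ℝ) ^ 4
  | (d :: l), y, w =>
      if y = 0 then B4 l (-d) w else (B4 l (y - d) (w - 1) + B4 l (y - y.sign - d) (w + 1)) / 2

theorem A_nonneg (l : List ℤ) (y : ℤ) : 0 ≤ A l y := by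
  induction l generalizing y with
  | nil => simp [A]
  | cons d l ih =>
    rw [A]
    split_ifs
    · have := ih (-d); linarith
    · have h1 := ih (y - d); have h2 := ih (y - y.sign - d); linarith

theorem A_cons_zero_ge (d : ℤ) (l : List ℤ) : 1 ≤ A (d :: l) 0 := by
  rw [A, if_pos rfl]
  have := A_nonneg l (-d); linarith

theorem B2_eq (l : List ℤ) (y w : ℤ) : B2 l y w = (w : ℝ) ^ 2 + l.length - A l y := by
  induction l generalizing y w with
  | nil => simp [A, B2]
  | cons d l ih =>
    rw [B2, A]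
    split_ifs with h
    · rw [ih]; push_cast [List.length_cons]; ring
    · rw [ih, ih]; push_cast [List.length_cons]; ring

theorem B4_le (l : List ℤ) (y w : ℤ) :
    B4 l y w ≤ (w : ℝ) ^ 4 + 6 * (w : ℝ) ^ 2 * l.length + 3 * (l.length : ℝ) ^ 2 := by
  induction l generalizing y w with
  | nil => simp [B4]
  | cons d l ih =>
    rw [B4]
    have hL : (0 : ℝ) ≤ (l.length : ℝ) := Nat.cast_nonneg _
    split_ifs with h
    · refine (ih _ _).trans ?_
      push_cast [List.length_cons]
      nlinarith [sq_nonneg (w : ℝ)]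
    · have h1 := ih (y - d) (w - 1)
      have h2 := ih (y - y.sign - d) (w + 1)
      push_cast [List.length_cons] at h1 h2 ⊢
      nlinarith [sq_nonneg (w : ℝ)]

/-- The combination of moments used as a test function. -/
noncomputable def EQ (K : ℝ) (l : List ℤ) (y w : ℤ) : ℝ :=
  (w : ℝ) / 2 + (B2 l y w - B4 l y w / K ^ 2) / (2 * K)

theorem EQ_cons_zero (K : ℝ) (d : ℤ) (l : List ℤ) (w : ℤ) :
    EQ K (d :: l) 0 w = EQ K l (-d) w := by
  simp [EQ, B2, B4]

theorem EQ_cons_ne (K : ℝ) (d : ℤ) (l : List ℤ) (y w : ℤ) (h : y ≠ 0) :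
    EQ K (d :: l) y w = (EQ K l (y - d) (w - 1) + EQ K l (y - y.sign - d) (w + 1)) / 2 := by
  simp only [EQ, B2, B4, if_neg h]
  push_cast
  ring

theorem Q_le (K : ℝ) (hK : 0 < K) (w : ℝ) :
    w / 2 + (w ^ 2 - w ^ 4 / K ^ 2) / (2 * K) ≤ max 0 w := by
  have hy : (w ^ 2 - w ^ 4 / K ^ 2) / (2 * K) = K * ((|w| / K) ^ 2 - (|w| / K) ^ 4) / 2 := by
    rw [div_pow, div_pow, sq_abs]
    have : |w| ^ 4 = w ^ 4 := by
      rw [show (4 : ℕ) = 2 * 2 from rfl, pow_mul, pow_mul, sq_abs]
    rw [this]
    field_simp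
  have h0 : 0 ≤ |w| / K := by positivity
  have h1 : (|w| / K) ^ 2 - (|w| / K) ^ 4 ≤ |w| / K := by
    set t := |w| / K
    have : 0 ≤ 1 - t + t ^ 3 := by
      rcases le_total t 1 with h | h
      · have := pow_nonneg h0 3; linarith
      · nlinarith [mul_nonneg h0 (sq_nonneg t), mul_nonneg h0 (mul_nonneg (sub_nonneg.2 h) (add_nonneg zero_le_one h0))]
    nlinarith
  have h2 : K * ((|w| / K) ^ 2 - (|w| / K) ^ 4) / 2 ≤ |w| / 2 := by
    have : K * ((|w| / K) ^ 2 - (|w| / K) ^ 4) ≤ K * (|w| / K) := mul_le_mul_of_nonneg_left h1 hK.le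
    rw [mul_div_cancel₀ _ hK.ne'] at this
    linarith
  rw [hy]
  rcases abs_cases w with ⟨hw, hw'⟩ | ⟨hw, hw'⟩
  · rw [hw] at h2 ⊢
    have := le_max_right 0 w; linarith
  · rw [hw] at h2 ⊢
    have := le_max_left 0 w; linarith

theorem EQ_le (K : ℝ) (hK : 0 < K) (l : List ℤ) :
    ∀ (y w v : ℤ), 0 ≤ v →
      0 ≤ v - w + l.length - 2 * (l.map fun d => |d|).sum - 2 * |y| →
      EQ K l y w ≤ v + A l y := by
  induction l with
  | nil =>
    intro y w v hv h
    simp only [List.length_nil, List.map_nil, List.sum_nil] at h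
    have h1 : w ≤ v := by have := abs_nonneg y; push_cast at h; linarith
    have h2 := Q_le K hK (w : ℝ)
    have h3 : max 0 (w : ℝ) ≤ v := max_le (by exact_mod_cast hv) (by exact_mod_cast h1)
    simp only [EQ, B2, B4, A]
    linarith
  | cons d l ih =>
    intro y w v hv h
    simp only [List.length_cons, List.map_cons, List.sum_cons] at h
    push_cast at h
    by_cases hy : y = 0
    · subst hy
      rw [EQ_cons_zero, A, if_pos rfl]
      have := ih (-d) w (v + 1) (by linarith) (by rw [abs_neg]; simp at h; linarith)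
      push_cast at this
      linarith
    · rw [EQ_cons_ne _ _ _ _ _ hy, A, if_neg hy]
      have h1 := ih (y - d) (w - 1) v hv (by
        have := abs_sub y d
        linarith)
      have h2 := ih (y - y.sign - d) (w + 1) v hv (by
        have h3 : |y - y.sign - d| ≤ |y - y.sign| + |d| := abs_sub _ _
        have h4 : |y - y.sign| = |y| - 1 := by
          rcases lt_or_gt_of_ne hy with h | h
          · rw [Int.sign_eq_neg_one_of_neg h, abs_of_neg h, abs_of_nonpos (by linarith)]; ring
          · rw [Int.sign_eq_one_of_pos h, abs_of_pos h, abs_of_nonneg (by linarith)]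
        linarith)
      linarith

theorem A_ge_sqrt (l : List ℤ) (h : 2 * (l.map fun d => |d|).sum ≤ l.length) :
    Real.sqrt l.length / 12 ≤ A l 0 := by
  rcases Nat.eq_zero_or_pos l.length with h0 | h0
  · rw [h0]; simp; exact A_nonneg _ _
  set s : ℝ := (l.length : ℝ) with hs
  have hs1 : 1 ≤ s := by rw [hs]; exact_mod_cast h0
  set r : ℝ := Real.sqrt s with hr
  have hr1 : 1 ≤ r := by rw [hr]; exact Real.one_le_sqrt.2 hs1
  have hrr : r * r = s := Real.mul_self_sqrt (by linarith)
  have hA := A_nonneg l 0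
  -- choose K = 5/2 * r, so K^2 = 25/4 * s
  have hK : 0 < 5 / 2 * r := by linarith
  have h1 := EQ_le (5 / 2 * r) hK l 0 0 0 le_rfl (by simp; linarith)
  have h2 := B2_eq l 0 0
  have h3 := B4_le l 0 0
  simp only [EQ] at h1
  have h4 : B4 l 0 0 / (5 / 2 * r) ^ 2 ≤ 12 / 25 * s := by
    rw [div_le_iff₀ (by positivity)]
    have : (5 / 2 * r) ^ 2 = 25 / 4 * s := by rw [← hrr]; ring
    rw [this]
    simp only [Int.cast_zero] at h3
    nlinarith
  have h5 : (B2 l 0 0 - B4 l 0 0 / (5 / 2 * r) ^ 2) / (2 * (5 / 2 * r)) ≤ A l 0 := by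
    simpa using h1
  rw [div_le_iff₀ (by positivity)] at h5
  rw [h2] at h5
  simp only [Int.cast_zero] at h5
  -- s - A - 12/25 s ≤ A * 5 r
  have h6 : 13 / 25 * s ≤ A l 0 * (1 + 5 * r) := by nlinarith
  have h7 : A l 0 * (1 + 5 * r) ≤ A l 0 * (6 * r) := mul_le_mul_of_nonneg_left (by linarith) hA
  have h8 : 13 / 25 * r * r ≤ A l 0 * 6 * r := by nlinarith
  have h9 : 13 / 25 * r ≤ A l 0 * 6 := le_of_mul_le_mul_right h8 (by linarith)
  linarith

end Run7.h168.Zombie
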