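import Pool.Agent.Run7.h168.ZGame
import Pool.Agent.Run7.h168.ZLattice

/-!
Geometry of the toroidal grid: near the survivor the greedy moves of the zombies are those on
`ℤ × ℤ`.
-/

open scoped ENNReal

namespace Run7.h168.Zombie

variable {n : ℕ} [NeZero n]

/-- The residue of an integer as an element of `Fin n`. -/
def cf (n : ℕ) [NeZero n] (i : ℤ) : Fin n :=
  ⟨(i % (n : ℤ)).toNat, by
    have h0 : (0 : ℤ) < n := by exact_mod_cast Nat.pos_of_ne_zero (NeZero.ne n)
    have h1 := Int.emod_nonneg i h0.ne'
    have h2 := Int.emod_lt_of_pos i h0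
    omega⟩

theorem cf_val (i : ℤ) : ((cf n i).val : ℤ) = i % n := by
  have h0 : (0 : ℤ) < n := by exact_mod_cast Nat.pos_of_ne_zero (NeZero.ne n)
  have h1 := Int.emod_nonneg i h0.ne'
  simp only [cf]
  omega

theorem cf_eq_iff (i j : ℤ) : cf n i = cf n j ↔ (n : ℤ) ∣ i - j := by
  rw [Fin.ext_iff, ← Int.ofNat_inj, cf_val, cf_val, Int.emod_emod_of_dvd _ (dvd_refl _) |>.symm]
  constructor
  · intro h
    exact Int.ModEq.dvd (Int.ModEq.symm (by simpa [Int.ModEq] using h))
  · intro h
    have : i ≡ j [ZMOD n] := (Int.modEq_iff_dvd.2 (by simpa using h)).symm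
    simpa [Int.ModEq] using this

theorem cf_self (a : Fin n) : cf n (a.val : ℤ) = a := by
  rw [Fin.ext_iff, ← Int.ofNat_inj, cf_val]
  exact Int.emod_eq_of_lt (by positivity) (by exact_mod_cast a.isLt)

theorem sub_val_eq_one_iff (hn : 2 ≤ n) (i j : ℤ) :
    (cf n i - cf n j).val = 1 ↔ (n : ℤ) ∣ i - j - 1 := by
  have h0 : (0 : ℤ) < n := by exact_mod_cast Nat.pos_of_ne_zero (NeZero.ne n)
  have h1 : ((cf n i - cf n j).val : ℤ) = (i - j) % n := by
    rw [Fin.val_sub]
    have hj : (cf n j).val ≤ n := (cf n j).isLt.le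
    push_cast [Nat.cast_sub hj]
    rw [cf_val, cf_val]
    have : (n : ℤ) - j % n + i % n = (i - j) + n * (1 + j / n - i / n) := by
      have e1 := Int.emod_add_mul_ediv i n
      have e2 := Int.emod_add_mul_ediv j n
      linear_combination e1 - e2
    rw [this, Int.add_mul_emod_self_left]
  constructor
  · intro h
    have h2 : (i - j) % n = 1 := by rw [← h1, h]; rfl
    have e1 := Int.emod_add_mul_ediv (i - j) n
    refine ⟨(i - j) / n, ?_⟩
    linarith
  · rintro ⟨q, hq⟩
    have h2 : (i - j) % n = 1 := by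
      have : i - j = 1 + n * q := by linarith
      rw [this, Int.add_mul_emod_self_left]
      exact Int.emod_eq_of_lt (by norm_num) (by exact_mod_cast hn)
    have : ((cf n i - cf n j).val : ℤ) = 1 := by rw [h1, h2]
    exact_mod_cast this

theorem cyc_adj_iff (hn : 2 ≤ n) (i j : ℤ) :
    (SimpleGraph.cycleGraph n).Adj (cf n i) (cf n j) ↔
      (n : ℤ) ∣ i - j - 1 ∨ (n : ℤ) ∣ j - i - 1 := by
  rw [SimpleGraph.cycleGraph_adj', sub_val_eq_one_iff hn, sub_val_eq_one_iff hn]

theorem cyc_adj_exists (hn : 2 ≤ n) (i : ℤ) (w : Fin n)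
    (h : (SimpleGraph.cycleGraph n).Adj (cf n i) w) : w = cf n (i + 1) ∨ w = cf n (i - 1) := by
  rw [← cf_self w, cyc_adj_iff hn] at h
  rw [← cf_self w, cf_eq_iff, cf_eq_iff]
  rcases h with h | h
  · right
    have h' := (dvd_neg (α := ℤ)).2 h
    rwa [show -(i - (w.val : ℤ) - 1) = (w.val : ℤ) - (i - 1) by ring] at h'
  · left
    rwa [show (w.val : ℤ) - i - 1 = (w.val : ℤ) - (i + 1) by ring] at h

theorem cyc_connected : (SimpleGraph.cycleGraph n).Connected := by
  obtain ⟨m, rfl⟩ : ∃ m, n = m + 1 := ⟨n - 1, by have := Nat.pos_of_ne_zero (NeZero.ne n); omega⟩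
  exact SimpleGraph.cycleGraph_connected

theorem cyc_walk (hn : 2 ≤ n) (i : ℤ) (v : Fin n)
    (p : (SimpleGraph.cycleGraph n).Walk (cf n i) v) :
    ∃ d : ℤ, |d| ≤ p.length ∧ v = cf n (i + d) := by
  generalize hu : cf n i = u at p
  induction p generalizing i with
  | nil => exact ⟨0, by simp, by simp [hu]⟩
  | cons hadj q ih =>
    rename_i u' v' w'
    subst hu
    rcases cyc_adj_exists hn i _ hadj with h | h
    · obtain ⟨d, hd, hv⟩ := ih (i + 1) h.symm
      refine ⟨d + 1, ?_, ?_⟩
      · rw [SimpleGraph.Walk.length_cons]; push_cast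
        have := abs_add_le d 1; simp at this; linarith
      · rw [hv]; congr 1; ring
    · obtain ⟨d, hd, hv⟩ := ih (i - 1) h.symm
      refine ⟨d - 1, ?_, ?_⟩
      · rw [SimpleGraph.Walk.length_cons]; push_cast
        have := abs_sub d 1; simp at this; linarith
      · rw [hv]; congr 1; ring

theorem cyc_dist_le (hn : 2 ≤ n) (i : ℤ) (m : ℕ) :
    (SimpleGraph.cycleGraph n).dist (cf n i) (cf n (i + m)) ≤ m := by
  induction m with
  | zero => simp
  | succ m ih =>
    have h1 : (SimpleGraph.cycleGraph n).Adj (cf n (i + m)) (cf n (i + (m + 1 : ℕ))) := by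
      rw [cyc_adj_iff hn]; right; push_cast; ring_nf; exact dvd_zero _
    have h2 := cyc_connected.dist_triangle (u := cf n i) (v := cf n (i + m))
      (w := cf n (i + (m + 1 : ℕ)))
    rw [SimpleGraph.dist_eq_one_iff_adj.2 h1] at h2
    omega

theorem cyc_dist (hn : 2 ≤ n) (i j : ℤ) (h : 2 * |i - j| ≤ n) :
    ((SimpleGraph.cycleGraph n).dist (cf n i) (cf n j) : ℤ) = |i - j| := by
  apply le_antisymm
  · rcases le_total i j with hij | hij
    · have := cyc_dist_le hn i (j - i).toNat
      rw [Int.toNat_of_nonneg (by linarith), add_sub_cancel] at this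
      rw [abs_of_nonpos (by linarith)]
      omega
    · have := cyc_dist_le hn j (i - j).toNat
      rw [Int.toNat_of_nonneg (by linarith), add_sub_cancel] at this
      rw [abs_of_nonneg (by linarith), SimpleGraph.dist_comm]
      omega
  · obtain ⟨p, hp⟩ := cyc_connected.exists_walk_length_eq_dist (cf n i) (cf n j)
    obtain ⟨d, hd, hv⟩ := cyc_walk hn i _ p
    rw [hp] at hd
    refine le_trans ?_ hd
    rw [cf_eq_iff] at hv
    obtain ⟨q, hq⟩ := hv
    -- j - (i + d) = n * q
    rcases eq_or_ne q 0 with h0 | h0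
    · have : d = j - i := by rw [h0] at hq; linarith
      rw [this, abs_sub_comm]
    · have h1 : (n : ℤ) ≤ |(n : ℤ) * q| := by
        rw [abs_mul, abs_of_nonneg (by positivity : (0 : ℤ) ≤ n)]
        have := Int.one_le_abs h0
        nlinarith [(by positivity : (0 : ℤ) ≤ n)]
      rw [← hq] at h1
      have h2 : |j - (i + d)| ≤ |i - j| + |d| := by
        have e : j - (i + d) = -((i - j) + d) := by ring
        rw [e, abs_neg]; exact abs_add_le _ _
      linarith

/-- The vertex of the torus with integer coordinates `(a, b)`. -/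
def P (n : ℕ) [NeZero n] (a b : ℤ) : Fin n × Fin n := (cf n a, cf n b)

theorem P_surj (v : Fin n × Fin n) : ∃ a b, v = P n a b :=
  ⟨v.1.val, v.2.val, by ext1 <;> simp [P, cf_self]⟩

theorem torus_connected : (torus n).Connected := cyc_connected.boxProd cyc_connected

theorem torus_dist (x y : Fin n × Fin n) :
    (torus n).dist x y = (SimpleGraph.cycleGraph n).dist x.1 y.1 +
      (SimpleGraph.cycleGraph n).dist x.2 y.2 := by
  have h := SimpleGraph.edist_boxProd (G := SimpleGraph.cycleGraph n)
    (H := SimpleGraph.cycleGraph n) x y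
  have h1 := (torus_connected (n := n)).preconnected x y
  have h2 := (cyc_connected (n := n)).preconnected x.1 y.1
  have h3 := (cyc_connected (n := n)).preconnected x.2 y.2
  rw [← h2.coe_dist_eq_edist, ← h3.coe_dist_eq_edist] at h
  have h4 := h1.coe_dist_eq_edist
  rw [torus] at h4 ⊢
  rw [h] at h4
  exact_mod_cast h4

theorem dist_P (hn : 2 ≤ n) (a b a' b' : ℤ) (h1 : 2 * |a - a'| ≤ n) (h2 : 2 * |b - b'| ≤ n) :
    ((torus n).dist (P n a b) (P n a' b') : ℤ) = |a - a'| + |b - b'| := by
  rw [torus_dist]
  push_cast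
  rw [P, P, cyc_dist hn _ _ h1, cyc_dist hn _ _ h2]

theorem P_eq_iff (a b a' b' : ℤ) :
    P n a b = P n a' b' ↔ (n : ℤ) ∣ a - a' ∧ (n : ℤ) ∣ b - b' := by
  rw [P, P, Prod.mk.injEq, cf_eq_iff, cf_eq_iff]

theorem P_inj (a b a' b' : ℤ) (h1 : |a - a'| < n) (h2 : |b - b'| < n)
    (h : P n a b = P n a' b') : a = a' ∧ b = b' := by
  rw [P_eq_iff] at h
  have e1 := Int.eq_zero_of_abs_lt_dvd h.1 h1
  have e2 := Int.eq_zero_of_abs_lt_dvd h.2 h2
  constructor <;> linarith

theorem adj_P_iff (hn : 2 ≤ n) (a b : ℤ) (w : Fin n × Fin n) :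
    (torus n).Adj (P n a b) w ↔
      w = P n (a + 1) b ∨ w = P n (a - 1) b ∨ w = P n a (b + 1) ∨ w = P n a (b - 1) := by
  rw [torus, SimpleGraph.boxProd_adj]
  constructor
  · rintro (⟨h, h'⟩ | ⟨h, h'⟩)
    · rcases cyc_adj_exists hn a _ h with e | e
      · left; ext1; exacts [e, h'.symm]
      · right; left; ext1; exacts [e, h'.symm]
    · rcases cyc_adj_exists hn b _ h with e | e
      · right; right; left; ext1; exacts [h'.symm, e]
      · right; right; right; ext1; exacts [h'.symm, e]
  · rintro (rfl | rfl | rfl | rfl)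
    · left; exact ⟨(cyc_adj_iff hn _ _).2 (Or.inr (by ring_nf; exact dvd_zero _)), rfl⟩
    · left; exact ⟨(cyc_adj_iff hn _ _).2 (Or.inl (by ring_nf; exact dvd_zero _)), rfl⟩
    · right; exact ⟨(cyc_adj_iff hn _ _).2 (Or.inr (by ring_nf; exact dvd_zero _)), rfl⟩
    · right; exact ⟨(cyc_adj_iff hn _ _).2 (Or.inl (by ring_nf; exact dvd_zero _)), rfl⟩

theorem abs_sub_sign (x : ℤ) (hx : x ≠ 0) : |x - x.sign| = |x| - 1 := by
  rcases lt_or_gt_of_ne hx with h | h
  · rw [Int.sign_eq_neg_one_of_neg h, abs_of_neg h, abs_of_nonpos (by linarith)]; ring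
  · rw [Int.sign_eq_one_of_pos h, abs_of_pos h, abs_of_nonneg (by linarith)]

/-- The set of closer neighbours near the survivor. -/
theorem mem_closer_P (hn : 2 ≤ n) (a b x y : ℤ) (h : 2 * (|x| + |y| + 1) ≤ n)
    (w : Fin n × Fin n) :
    w ∈ closer (torus n) (P n (a + x) (b + y)) (P n a b) ↔
      (x ≠ 0 ∧ w = P n (a + (x - x.sign)) (b + y)) ∨
      (y ≠ 0 ∧ w = P n (a + x) (b + (y - y.sign))) := by
  have hx0 := abs_nonneg x
  have hy0 := abs_nonneg y
  have D : ∀ x' y' : ℤ, 2 * |x'| ≤ n → 2 * |y'| ≤ n →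
      ((torus n).dist (P n (a + x') (b + y')) (P n a b) : ℤ) = |x'| + |y'| := by
    intro x' y' h1 h2
    have := dist_P hn (a + x') (b + y') a b (by simpa using h1) (by simpa using h2)
    simpa using this
  have D0 := D x y (by linarith) (by linarith)
  rw [mem_closer, adj_P_iff hn]
  constructor
  · rintro ⟨hw, hd⟩
    have hd' : (((torus n).dist w (P n a b) : ℕ) : ℤ) + 1 =
        ((torus n).dist (P n (a + x) (b + y)) (P n a b) : ℕ) := by exact_mod_cast hd
    rw [D0] at hd'
    rcases hw with rfl | rfl | rfl | rfl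
    · have ha := abs_add_le x 1
      simp only [abs_one] at ha
      rw [add_assoc, D (x + 1) y (by linarith) (by linarith)] at hd'
      left
      have hneg : x < 0 := by
        by_contra hc
        push Not at hc
        rw [abs_of_nonneg hc, abs_of_nonneg (show 0 ≤ x + 1 by linarith)] at hd'
        linarith
      refine ⟨hneg.ne, ?_⟩
      rw [Int.sign_eq_neg_one_of_neg hneg]; congr 1; ring
    · have ha := abs_sub x 1
      simp only [abs_one] at ha
      rw [show a + x - 1 = a + (x - 1) by ring, D (x - 1) y (by linarith) (by linarith)] at hd'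
      left
      have hpos : 0 < x := by
        by_contra hc
        push Not at hc
        rw [abs_of_nonpos hc, abs_of_nonpos (show x - 1 ≤ 0 by linarith)] at hd'
        linarith
      refine ⟨hpos.ne', ?_⟩
      rw [Int.sign_eq_one_of_pos hpos]; congr 1; ring
    · have ha := abs_add_le y 1
      simp only [abs_one] at ha
      rw [add_assoc, D x (y + 1) (by linarith) (by linarith)] at hd'
      right
      have hneg : y < 0 := by
        by_contra hc
        push Not at hc
        rw [abs_of_nonneg hc, abs_of_nonneg (show 0 ≤ y + 1 by linarith)] at hd'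
        linarith
      refine ⟨hneg.ne, ?_⟩
      rw [Int.sign_eq_neg_one_of_neg hneg]; congr 1; ring
    · have ha := abs_sub y 1
      simp only [abs_one] at ha
      rw [show b + y - 1 = b + (y - 1) by ring, D x (y - 1) (by linarith) (by linarith)] at hd'
      right
      have hpos : 0 < y := by
        by_contra hc
        push Not at hc
        rw [abs_of_nonpos hc, abs_of_nonpos (show y - 1 ≤ 0 by linarith)] at hd'
        linarith
      refine ⟨hpos.ne', ?_⟩
      rw [Int.sign_eq_one_of_pos hpos]; congr 1; ring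
  · rintro (⟨hx, rfl⟩ | ⟨hy, rfl⟩)
    · refine ⟨?_, ?_⟩
      · rcases lt_or_gt_of_ne hx with h' | h'
        · left; rw [Int.sign_eq_neg_one_of_neg h']; congr 1; ring
        · right; left; rw [Int.sign_eq_one_of_pos h']; congr 1; ring
      · have h1 := abs_sub_sign x hx
        have := D (x - x.sign) y (by linarith) (by linarith)
        rw [h1] at this
        zify
        linarith
    · refine ⟨?_, ?_⟩
      · rcases lt_or_gt_of_ne hy with h' | h'
        · right; right; left; rw [Int.sign_eq_neg_one_of_neg h']; congr 1; ring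
        · right; right; right; rw [Int.sign_eq_one_of_pos h']; congr 1; ring
      · have h1 := abs_sub_sign y hy
        have := D x (y - y.sign) (by linarith) (by linarith)
        rw [h1] at this
        zify
        linarith

theorem P_ne_of_ne (a b x y x' y' : ℤ) (hx : |x - x'| < n) (hy : |y - y'| < n)
    (h : ¬ (x = x' ∧ y = y')) : P n (a + x) (b + y) ≠ P n (a + x') (b + y') := by
  intro e
  obtain ⟨h1, h2⟩ := P_inj _ _ _ _ (by simpa using hx) (by simpa using hy) e
  exact h ⟨by linarith, by linarith⟩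

/-- Positions of the survivor starting at `(a, b)` with steps `ds` (start excluded). -/
def pos (n : ℕ) [NeZero n] : ℤ → ℤ → List (ℤ × ℤ) → List (Fin n × Fin n)
  | _, _, [] => []
  | a, b, d :: l => P n (a + d.1) (b + d.2) :: pos n (a + d.1) (b + d.2) l

theorem cap_eq (hn : 2 ≤ n) (ds : List (ℤ × ℤ)) (hds : ∀ d ∈ ds, IsStep d) (a b x y : ℤ)
    (h : 2 * (|x| + |y| + 1) ≤ n) :
    cap (torus n) (pos n a b ds) (P n a b) (P n (a + x) (b + y)) = Grel ds x y := by
  induction ds generalizing a b x y with
  | nil =>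
    rw [pos, cap, Grel]
    have : P n (a + x) (b + y) = P n a b ↔ (x = 0 ∧ y = 0) := by
      constructor
      · intro e
        have := P_inj (n := n) (a + x) (b + y) a b (by simp; linarith [abs_nonneg x, abs_nonneg y])
          (by simp; linarith [abs_nonneg x, abs_nonneg y]) e
        constructor <;> linarith [this.1, this.2]
      · rintro ⟨rfl, rfl⟩; simp
    simp only [this]
  | cons d l ih =>
    have hx0 := abs_nonneg x
    have hy0 := abs_nonneg y
    have hd : |d.1| + |d.2| ≤ 1 := hds d List.mem_cons_self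
    have ih' := ih fun e he => hds e (List.mem_cons_of_mem _ he)
    -- value after the zombie's move
    have hhat : ∀ x' y' : ℤ, 2 * (|x'| + |y'| + 2) ≤ n →
        (if P n (a + x') (b + y') = P n a b then 1 else
          cap (torus n) (pos n (a + d.1) (b + d.2) l) (P n (a + d.1) (b + d.2))
            (P n (a + x') (b + y'))) = hat d l x' y' := by
      intro x' y' h'
      have hx0' := abs_nonneg x'
      have hy0' := abs_nonneg y'
      unfold hat
      have e0 : P n (a + x') (b + y') = P n a b ↔ (x' = 0 ∧ y' = 0) := by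
        constructor
        · intro e
          have := P_inj (n := n) (a + x') (b + y') a b (by simp; linarith) (by simp; linarith) e
          constructor <;> linarith [this.1, this.2]
        · rintro ⟨rfl, rfl⟩; simp
      simp only [e0]
      split_ifs
      · rfl
      · have a1 := abs_sub x' d.1
        have a2 := abs_sub y' d.2
        rw [← ih' (a + d.1) (b + d.2) (x' - d.1) (y' - d.2) (by linarith)]
        congr 2 <;> ring
    rw [pos, cap, Grel_cons]
    have e0 : P n (a + x) (b + y) = P n a b ↔ (x = 0 ∧ y = 0) := by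
      constructor
      · intro e
        have := P_inj (n := n) (a + x) (b + y) a b (by simp; linarith) (by simp; linarith) e
        constructor <;> linarith [this.1, this.2]
      · rintro ⟨rfl, rfl⟩; simp
    simp only [e0]
    by_cases h0 : x = 0 ∧ y = 0
    · rw [if_pos h0, if_pos h0]
    rw [if_neg h0, if_neg h0, sum_stepProb_mul]
    have hmem := mem_closer_P hn a b x y h
    by_cases hy : y = 0
    · have hx : x ≠ 0 := fun hx => h0 ⟨hx, hy⟩
      have hset : closer (torus n) (P n (a + x) (b + y)) (P n a b) =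
          {P n (a + (x - x.sign)) (b + y)} := by
        ext w; rw [hmem, Finset.mem_singleton]; simp [hy, hx]
      rw [hset, if_pos hy, Finset.card_singleton, Finset.sum_singleton]
      have h1 := abs_sub_sign x hx
      rw [hhat (x - x.sign) y (by linarith), hy]
      simp
    · rw [if_neg hy]
      by_cases hx : x = 0
      · have hset : closer (torus n) (P n (a + x) (b + y)) (P n a b) =
            {P n (a + x) (b + (y - y.sign))} := by
          ext w; rw [hmem, Finset.mem_singleton]; simp [hy, hx]
        rw [hset, if_pos hx, Finset.card_singleton, Finset.sum_singleton]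
        have h1 := abs_sub_sign y hy
        rw [hhat x (y - y.sign) (by linarith), hx]
        simp
      · have hsx := abs_sub_sign x hx
        have hsy := abs_sub_sign y hy
        have hx1 := Int.one_le_abs hx
        have hy1 := Int.one_le_abs hy
        have hne : P n (a + (x - x.sign)) (b + y) ≠ P n (a + x) (b + (y - y.sign)) := by
          apply P_ne_of_ne
          · have := abs_sub (x - x.sign) x; linarith
          · have := abs_sub y (y - y.sign); linarith
          · rintro ⟨e, -⟩
            have : x.sign = 0 := by linarith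
            exact hx (Int.sign_eq_zero_iff_zero.1 this)
        have hset : closer (torus n) (P n (a + x) (b + y)) (P n a b) =
            {P n (a + (x - x.sign)) (b + y), P n (a + x) (b + (y - y.sign))} := by
          ext w; rw [hmem, Finset.mem_insert, Finset.mem_singleton]; simp [hy, hx]
        rw [hset, if_neg hx, Finset.card_pair hne, Finset.sum_pair hne,
          hhat (x - x.sign) y (by linarith), hhat x (y - y.sign) (by linarith),
          ENNReal.div_eq_inv_mul]
        norm_num

theorem valid_eq_pos (hn : 2 ≤ n) (l : List (Fin n × Fin n)) (a b : ℤ)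
    (h : Valid (torus n) (P n a b) l) :
    ∃ ds : List (ℤ × ℤ), (∀ d ∈ ds, IsStep d) ∧ ds.length = l.length ∧ l = pos n a b ds := by
  induction l generalizing a b with
  | nil => exact ⟨[], by simp, rfl, rfl⟩
  | cons v' l ih =>
    obtain ⟨h1, h2⟩ := h
    rw [mem_cnbhd, adj_P_iff hn] at h1
    have : ∃ d : ℤ × ℤ, IsStep d ∧ v' = P n (a + d.1) (b + d.2) := by
      rcases h1 with h1 | h1 | h1 | h1 | h1
      · exact ⟨(0, 0), by simp [IsStep], by simpa using h1⟩
      · exact ⟨(1, 0), by simp [IsStep], by simpa using h1⟩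
      · exact ⟨(-1, 0), by simp [IsStep], by simpa [sub_eq_add_neg] using h1⟩
      · exact ⟨(0, 1), by simp [IsStep], by simpa using h1⟩
      · exact ⟨(0, -1), by simp [IsStep], by simpa [sub_eq_add_neg] using h1⟩
    obtain ⟨d, hd, rfl⟩ := this
    obtain ⟨ds, hds, hlen, hl⟩ := ih _ _ h2
    refine ⟨d :: ds, ?_, by simp [hlen], by rw [pos, ← hl]⟩
    intro e he
    rcases List.mem_cons.1 he with rfl | he
    · exact hd
    · exact hds e he

theorem Grel_support (ds : List (ℤ × ℤ)) (hds : ∀ d ∈ ds, IsStep d) (x y : ℤ)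
    (h : 2 * (ds.length : ℤ) < |x| + |y|) : Grel ds x y = 0 := by
  induction ds generalizing x y with
  | nil =>
    rw [Grel, if_neg]
    rintro ⟨rfl, rfl⟩
    simp at h
  | cons d l ih =>
    have hd : |d.1| + |d.2| ≤ 1 := hds d List.mem_cons_self
    have ih' := ih fun e he => hds e (List.mem_cons_of_mem _ he)
    rw [List.length_cons] at h
    push_cast at h
    have hlen : (0 : ℤ) ≤ l.length := by positivity
    have hh : ∀ x' y' : ℤ, 2 * (l.length : ℤ) + 1 < |x'| + |y'| → hat d l x' y' = 0 := by
      intro x' y' h'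
      unfold hat
      rw [if_neg]
      · apply ih'
        have a1 := abs_sub_abs_le_abs_sub x' d.1
        have a2 := abs_sub_abs_le_abs_sub y' d.2
        linarith
      · rintro ⟨rfl, rfl⟩; simp at h'; linarith
    rw [Grel_cons]
    by_cases hx : x = 0
    · by_cases hy : y = 0
      · subst hx hy; simp at h; linarith
      · have := abs_sub_sign y hy
        rw [if_neg (fun h => hy h.2), if_neg hy, if_pos hx, hh]
        rw [hx] at h; simp at h ⊢; linarith
    · by_cases hy : y = 0
      · have := abs_sub_sign x hx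
        rw [if_neg (fun h => hx h.1), if_pos hy, hh]
        rw [hy] at h; simp at h ⊢; linarith
      · have h1 := abs_sub_sign x hx
        have h2 := abs_sub_sign y hy
        rw [if_neg (fun h => hx h.1), if_neg hy, if_neg hx, hh _ _ (by linarith),
          hh _ _ (by linarith)]
        simp

theorem Ms_le_sum_cap (hn : 2 ≤ n) (ds : List (ℤ × ℤ)) (hds : ∀ d ∈ ds, IsStep d)
    (hT : 2 * (2 * ds.length + 1) ≤ n) (a b : ℤ) :
    Ms ds ≤ ∑ z, cap (torus n) (pos n a b ds) (P n a b) z := by
  set R : ℤ := 2 * (ds.length : ℤ) with hR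
  have hR0 : 0 ≤ R := by positivity
  have hRn : 2 * (R + 1) ≤ n := by rw [hR]; exact_mod_cast hT
  set S : Finset (ℤ × ℤ) := ((Finset.Icc (-R) R) ×ˢ (Finset.Icc (-R) R)).filter
    (fun p => |p.2| + |p.1| ≤ R) with hS
  have hmemS : ∀ p : ℤ × ℤ, p ∈ S ↔ |p.2| + |p.1| ≤ R := by
    intro p
    rw [hS, Finset.mem_filter, Finset.mem_product, Finset.mem_Icc, Finset.mem_Icc]
    constructor
    · exact fun h => h.2
    · intro h
      have h1 := abs_nonneg p.1
      have h2 := abs_nonneg p.2
      have h3 := abs_le.1 (show |p.1| ≤ R by linarith)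
      have h4 := abs_le.1 (show |p.2| ≤ R by linarith)
      exact ⟨⟨h3, h4⟩, h⟩
  have e1 : Ms ds = ∑' p : ℤ × ℤ, Grel ds p.2 p.1 := by
    rw [ENNReal.tsum_prod (f := fun y x => Grel ds x y)]
    rfl
  have e2 : ∑' p : ℤ × ℤ, Grel ds p.2 p.1 = ∑ p ∈ S, Grel ds p.2 p.1 := by
    refine tsum_eq_sum fun p hp => ?_
    rw [hmemS] at hp
    push Not at hp
    exact Grel_support ds hds _ _ hp
  have e3 : ∑ p ∈ S, Grel ds p.2 p.1 =
      ∑ p ∈ S, cap (torus n) (pos n a b ds) (P n a b) (P n (a + p.2) (b + p.1)) := by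
    refine Finset.sum_congr rfl fun p hp => ?_
    rw [hmemS] at hp
    rw [cap_eq hn ds hds a b p.2 p.1 (by linarith)]
  rw [e1, e2, e3]
  have hinj : Set.InjOn (fun p : ℤ × ℤ => P n (a + p.2) (b + p.1)) (S : Set (ℤ × ℤ)) := by
    intro p hp q hq he
    rw [Finset.mem_coe, hmemS] at hp hq
    have a1 := abs_sub p.2 q.2
    have a2 := abs_sub p.1 q.1
    have := abs_nonneg p.1
    have := abs_nonneg p.2
    have := abs_nonneg q.1
    have := abs_nonneg q.2
    obtain ⟨h1, h2⟩ := P_inj (n := n) (a + p.2) (b + p.1) (a + q.2) (b + q.1)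
      (by simp; linarith) (by simp; linarith) he
    ext <;> linarith
  rw [← Finset.sum_image (f := fun z => cap (torus n) (pos n a b ds) (P n a b) z)
    (g := fun p : ℤ × ℤ => P n (a + p.2) (b + p.1)) hinj]
  exact Finset.sum_le_sum_of_subset (Finset.subset_univ _)

theorem cap_self (l : List (Fin n × Fin n)) (v : Fin n × Fin n) : cap (torus n) l v v = 1 := by
  cases l <;> simp [cap]

/-- The total capture mass against any path of length `T`. -/
theorem sum_cap_ge (hn : 2 ≤ n) (l : List (Fin n × Fin n)) (v : Fin n × Fin n)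
    (h : Valid (torus n) v l) (hT : 2 * (2 * l.length + 1) ≤ n) :
    ENNReal.ofReal (max 1 ((l.length : ℝ) * Real.sqrt l.length / 9)) ≤
      ∑ z, cap (torus n) l v z := by
  rw [ENNReal.ofReal_max]
  refine max_le ?_ ?_
  · rw [ENNReal.ofReal_one, ← cap_self l v]
    exact Finset.single_le_sum (f := fun z => cap (torus n) l v z) (fun _ _ => zero_le)
      (Finset.mem_univ _)
  · obtain ⟨a, b, rfl⟩ := P_surj v
    obtain ⟨ds, hds, hlen, rfl⟩ := valid_eq_pos hn l a b h
    rw [← hlen] at hT ⊢
    exact (Ms_ge ds hds).trans (Ms_le_sum_cap hn ds hds hT a b)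

theorem card_cnbhd_le (hn : 2 ≤ n) (v : Fin n × Fin n) : (cnbhd (torus n) v).card ≤ 5 := by
  obtain ⟨a, b, rfl⟩ := P_surj v
  have : cnbhd (torus n) (P n a b) ⊆
      {P n a b, P n (a + 1) b, P n (a - 1) b, P n a (b + 1), P n a (b - 1)} := by
    intro w hw
    rw [mem_cnbhd, adj_P_iff hn] at hw
    simpa using hw
  exact (Finset.card_le_card this).trans (Finset.card_le_five)

end Run7.h168.Zombie
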